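import Pool.Agent.Helper35_WH.Stmt3

/-!
# Module CROSS: handles become crosscaps
-/

namespace Pool.Agent.Helper35_WH

open FreeGroup

namespace CR75

set_option linter.unusedSectionVars false
set_option linter.unusedSimpArgs false

variable {X : Type} [DecidableEq X]

/-- the substitution for one handle -/
def hF (c a b : X) : FreeGroup X →* FreeGroup X :=
  lift fun x => if x = c then of a * of b * of c else
    if x = a then (of c)⁻¹ * (of b)⁻¹ * (of a)⁻¹ * of c else
    if x = b then (of c)⁻¹ * (of c)⁻¹ * (of b)⁻¹ * of c else of x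

/-- the inverse substitution -/
def hG (c a b : X) : FreeGroup X →* FreeGroup X :=
  lift fun x => if x = c then of c * of a else
    if x = a then of c * of c * of a * of b * (of a)⁻¹ * (of c)⁻¹ else
    if x = b then of c * of a * (of b)⁻¹ * (of a)⁻¹ * (of c)⁻¹ * (of a)⁻¹ * (of c)⁻¹ else of x

theorem hG_hF (c a b : X) (h1 : a ≠ c) (h2 : b ≠ c) (h3 : b ≠ a) :
    (hG c a b).comp (hF c a b) = MonoidHom.id _ := by
  apply ext_hom
  intro x
  by_cases hc : x = c
  · subst hc; simp [hG, hF, h1, h2, h3]; group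
  by_cases ha : x = a
  · subst ha; simp [hG, hF, h1, h2, h3]; group
  by_cases hb : x = b
  · subst hb; simp [hG, hF, h1, h2, h3]; group
  simp [hG, hF, hc, ha, hb]

theorem hF_hG (c a b : X) (h1 : a ≠ c) (h2 : b ≠ c) (h3 : b ≠ a) :
    (hF c a b).comp (hG c a b) = MonoidHom.id _ := by
  apply ext_hom
  intro x
  by_cases hc : x = c
  · subst hc; simp [hG, hF, h1, h2, h3]; group
  by_cases ha : x = a
  · subst ha; simp [hG, hF, h1, h2, h3]; group
  by_cases hb : x = b
  · subst hb; simp [hG, hF, h1, h2, h3]; group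
  simp [hG, hF, hc, ha, hb]

/-- the automorphism for one handle -/
def hE (c a b : X) (h1 : a ≠ c) (h2 : b ≠ c) (h3 : b ≠ a) : FreeGroup X ≃* FreeGroup X :=
  MonoidHom.toMulEquiv (hF c a b) (hG c a b) (hG_hF c a b h1 h2 h3) (hF_hG c a b h1 h2 h3)

/-- the inverse automorphism on generators -/
def invC {L B : Type} [DecidableEq L] [DecidableEq B] (c : L) :
    FreeGroup (L ⊕ B) → List (L × L) → L ⊕ B → FreeGroup (L ⊕ B)
  | Y, [], x => if x = .inl c then Y else of x
  | Y, h :: tl, x =>
    if x = .inl h.1 then Y * Y * of (.inl h.1) * of (.inl h.2) * (of (.inl h.1))⁻¹ * Y⁻¹ else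
    if x = .inl h.2 then
      Y * of (.inl h.1) * (of (.inl h.2))⁻¹ * (of (.inl h.1))⁻¹ * Y⁻¹ * (of (.inl h.1))⁻¹ * Y⁻¹
    else invC c (Y * of (.inl h.1)) tl x

variable {L B : Type} [DecidableEq L] [DecidableEq B]

theorem invC_map (c : L) (g : FreeGroup (L ⊕ B) →* FreeGroup (L ⊕ B)) (hs : List (L × L))
    (hg : ∀ h ∈ hs, g (of (.inl h.1)) = of (.inl h.1) ∧ g (of (.inl h.2)) = of (.inl h.2)) :
    ∀ (Y : FreeGroup (L ⊕ B)) (x : L ⊕ B), (x = .inl c ∨ g (of x) = of x) →
      g (invC c Y hs x) = invC c (g Y) hs x := by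
  induction hs with
  | nil =>
    intro Y x hx
    simp only [invC]
    by_cases h : x = .inl c
    · simp [h]
    · simp only [h, if_false]
      rcases hx with hx | hx
      · exact absurd hx h
      · exact hx
  | cons h tl ih =>
    intro Y x hx
    obtain ⟨g1, g2⟩ := hg h (by simp)
    simp only [invC]
    by_cases h1 : x = .inl h.1
    · simp [h1, g1, g2]
    by_cases h2 : x = .inl h.2
    · simp only [h1, h2, if_true, if_false]
      split_ifs
      · simp [g1, g2]
      · simp [g1, g2]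
    · simp only [h1, h2, if_false]
      rw [ih (fun h' hh => hg h' (by simp [hh])) _ x hx, _root_.map_mul, g1]

theorem invC_norm (c : L) (hs : List (L × L)) : ∀ (Y : FreeGroup (L ⊕ B)) (x : L ⊕ B),
    (invC c Y hs x).norm ≤ 3 * Y.norm + 3 * hs.length + 4 := by
  induction hs with
  | nil =>
    intro Y x
    simp only [invC]
    split_ifs
    · simp; omega
    · simp
  | cons h tl ih =>
    intro Y x
    simp only [invC]
    have nm := @norm_mul_le (L ⊕ B) _
    split_ifs
    · have e1 := nm (Y * Y * of (.inl h.1) * of (.inl h.2) * (of (.inl h.1))⁻¹) Y⁻¹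
      have e2 := nm (Y * Y * of (.inl h.1) * of (.inl h.2)) (of (.inl h.1))⁻¹
      have e3 := nm (Y * Y * of (.inl h.1)) (of (.inl h.2))
      have e4 := nm (Y * Y) (of (.inl h.1))
      have e5 := nm Y Y
      simp only [norm_inv_eq, norm_of] at e1 e2 e3 e4
      simp only [List.length_cons]
      omega
    · have e1 := nm (Y * of (.inl h.1) * (of (.inl h.2))⁻¹ * (of (.inl h.1))⁻¹ * Y⁻¹ *
        (of (.inl h.1))⁻¹) Y⁻¹
      have e2 := nm (Y * of (.inl h.1) * (of (.inl h.2))⁻¹ * (of (.inl h.1))⁻¹ * Y⁻¹)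
        (of (.inl h.1))⁻¹
      have e3 := nm (Y * of (.inl h.1) * (of (.inl h.2))⁻¹ * (of (.inl h.1))⁻¹) Y⁻¹
      have e4 := nm (Y * of (.inl h.1) * (of (.inl h.2))⁻¹) (of (.inl h.1))⁻¹
      have e5 := nm (Y * of (.inl h.1)) (of (.inl h.2))⁻¹
      have e6 := nm Y (of (.inl h.1))
      simp only [norm_inv_eq, norm_of] at e1 e2 e3 e4 e5 e6
      simp only [List.length_cons]
      omega
    · have e1 := ih (Y * of (.inl h.1)) x
      have e2 := nm Y (of (.inl h.1))
      simp only [norm_of] at e2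
      simp only [List.length_cons]
      omega

/-- the letters of a list of handles -/
def lts (hs : List (L × L)) : List L := hs.flatMap fun h => [h.1, h.2]

theorem mem_lts {hs : List (L × L)} {h : L × L} (hh : h ∈ hs) : h.1 ∈ lts hs ∧ h.2 ∈ lts hs := by
  unfold lts
  constructor <;> rw [List.mem_flatMap] <;> exact ⟨h, hh, by simp⟩

theorem wordOf_cons (p : Piece L B) (ps : List (Piece L B)) :
    mk (wordOf (p :: ps)) = mk p.word * mk (wordOf ps) := by
  rw [mul_mk]; rfl

theorem wordOf_append (ps qs : List (Piece L B)) :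
    mk (wordOf (ps ++ qs)) = mk (wordOf ps) * mk (wordOf qs) := by
  rw [mul_mk]
  unfold wordOf
  rw [List.flatMap_append]

theorem mk_com (a b : L) : mk (Piece.word (B := B) (.com a b)) =
    of (.inl a) * of (.inl b) * (of (.inl a))⁻¹ * (of (.inl b))⁻¹ := rfl

theorem mk_sq (a : L) : mk (Piece.word (B := B) (.sq a)) = of (.inl a) * of (.inl a) := rfl

theorem mk_bd (t : L) (j : B) (s : Bool) : mk (Piece.word (.bd t j s)) =
    of (.inl t) * (if s then of (.inr j) else (of (.inr j))⁻¹) * (of (.inl t))⁻¹ := by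
  cases s <;> rfl

/-- a homomorphism which fixes the letters of a list of handles -/
theorem map_coms (g : FreeGroup (L ⊕ B) →* FreeGroup (L ⊕ B)) (hs : List (L × L))
    (hg : ∀ h ∈ hs, g (of (.inl h.1)) = of (.inl h.1) ∧ g (of (.inl h.2)) = of (.inl h.2)) :
    g (mk (wordOf (hs.map fun h => .com h.1 h.2))) =
      mk (wordOf (hs.map fun h => .com h.1 h.2)) := by
  induction hs with
  | nil => exact g.map_one
  | cons h tl ih =>
    rw [List.map_cons, wordOf_cons, _root_.map_mul, ih (fun h' hh => hg h' (by simp [hh])), mk_com]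
    obtain ⟨g1, g2⟩ := hg h (by simp)
    simp [g1, g2]

theorem main (c : L) (hs : List (L × L)) (hnd : (c :: lts hs).Nodup) :
    ∃ f : FreeGroup (L ⊕ B) ≃* FreeGroup (L ⊕ B),
      (∀ x : L ⊕ B, (∀ y ∈ c :: lts hs, x ≠ .inl y) → f (of x) = of x) ∧
      f (mk (wordOf (.sq c :: hs.map fun h => .com h.1 h.2))) =
        mk (wordOf ((hs.flatMap fun h => [.sq h.1, .sq h.2]) ++ [.sq c])) ∧
      (f (of (.inl c))).norm ≤ 2 * hs.length + 1 ∧
      (∀ x, (f (of x)).norm ≤ 6 * hs.length + 1) ∧
      ∀ x, f.symm (of x) = invC c (of (.inl c)) hs x := by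
  induction hs with
  | nil =>
    refine ⟨MulEquiv.refl _, fun x _ => rfl, rfl, by simp, fun x => by simp, fun x => ?_⟩
    simp only [invC]
    split_ifs with h
    · rw [h]; rfl
    · rfl
  | cons h tl ih =>
    obtain ⟨a, b⟩ := h
    have hl : lts ((a, b) :: tl) = a :: b :: lts tl := rfl
    rw [hl] at hnd ⊢
    simp only [List.nodup_cons, List.mem_cons, not_or] at hnd
    obtain ⟨⟨hca, hcb, hct⟩, ⟨hab, hat⟩, hbt, hnt⟩ := hnd
    obtain ⟨F, f1, f2, f3, f4, f5⟩ := ih (List.nodup_cons.2 ⟨hct, hnt⟩)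
    have ia : (Sum.inl a : L ⊕ B) ≠ .inl c := fun h => hca (Sum.inl.inj h).symm
    have ib : (Sum.inl b : L ⊕ B) ≠ .inl c := fun h => hcb (Sum.inl.inj h).symm
    have iba : (Sum.inl b : L ⊕ B) ≠ .inl a := fun h => hab (Sum.inl.inj h).symm
    set E := hE (Sum.inl c : L ⊕ B) (.inl a) (.inl b) ia ib iba with hEdef
    have Ec : E (of (.inl c)) = of (.inl a) * of (.inl b) * of (.inl c) := by
      simp [hEdef, hE, hF]
    have Ea : E (of (.inl a)) = (of (.inl c))⁻¹ * (of (.inl b))⁻¹ * (of (.inl a))⁻¹ *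
        of (.inl c) := by
      simp [hEdef, hE, hF, ia]
    have Eb : E (of (.inl b)) = (of (.inl c))⁻¹ * (of (.inl c))⁻¹ * (of (.inl b))⁻¹ *
        of (.inl c) := by
      simp [hEdef, hE, hF, ib, iba]
    have Eo : ∀ x : L ⊕ B, x ≠ .inl c → x ≠ .inl a → x ≠ .inl b → E (of x) = of x := by
      intro x h1 h2 h3
      simp [hEdef, hE, hF, h1, h2, h3]
    have Gc : E.symm (of (.inl c)) = of (.inl c) * of (.inl a) := by
      simp [hEdef, hE, hG]
    have Ga : E.symm (of (.inl a)) = of (.inl c) * of (.inl c) * of (.inl a) * of (.inl b) *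
        (of (.inl a))⁻¹ * (of (.inl c))⁻¹ := by
      simp [hEdef, hE, hG, ia]
    have Gb : E.symm (of (.inl b)) = of (.inl c) * of (.inl a) * (of (.inl b))⁻¹ *
        (of (.inl a))⁻¹ * (of (.inl c))⁻¹ * (of (.inl a))⁻¹ * (of (.inl c))⁻¹ := by
      simp [hEdef, hE, hG, ib, iba]
    have Go : ∀ x : L ⊕ B, x ≠ .inl c → x ≠ .inl a → x ≠ .inl b → E.symm (of x) = of x := by
      intro x h1 h2 h3
      simp [hEdef, hE, hG, h1, h2, h3]
    have Fa : F (of (.inl a)) = of (.inl a) := f1 _ fun y hy hh => by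
      rcases List.mem_cons.1 hy with rfl | hy
      · exact ia hh
      · exact hat (Sum.inl.inj hh ▸ hy)
    have Fb : F (of (.inl b)) = of (.inl b) := f1 _ fun y hy hh => by
      rcases List.mem_cons.1 hy with rfl | hy
      · exact ib hh
      · exact hbt (Sum.inl.inj hh ▸ hy)
    have tlne : ∀ h ∈ tl, ((Sum.inl h.1 : L ⊕ B) ≠ .inl c ∧ (Sum.inl h.1 : L ⊕ B) ≠ .inl a ∧
        (Sum.inl h.1 : L ⊕ B) ≠ .inl b) ∧ ((Sum.inl h.2 : L ⊕ B) ≠ .inl c ∧
        (Sum.inl h.2 : L ⊕ B) ≠ .inl a ∧ (Sum.inl h.2 : L ⊕ B) ≠ .inl b) := by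
      intro h hh
      obtain ⟨m1, m2⟩ := mem_lts hh
      refine ⟨⟨?_, ?_, ?_⟩, ?_, ?_, ?_⟩ <;> intro e <;> have e' := Sum.inl.inj e
      · exact hct (e' ▸ m1)
      · exact hat (e' ▸ m1)
      · exact hbt (e' ▸ m1)
      · exact hct (e' ▸ m2)
      · exact hat (e' ▸ m2)
      · exact hbt (e' ▸ m2)
    have nm := @norm_mul_le (L ⊕ B) _
    refine ⟨E.trans F, ?_, ?_, ?_, ?_, ?_⟩
    · intro x hx
      have h1 := hx c (by simp)
      have h2 := hx a (by simp)
      have h3 := hx b (by simp)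
      rw [MulEquiv.trans_apply, Eo x h1 h2 h3]
      refine f1 x fun y hy => hx y ?_
      rcases List.mem_cons.1 hy with rfl | hy
      · simp
      · simp [hy]
    · have hrest : E (mk (wordOf (tl.map fun h => .com h.1 h.2))) =
          mk (wordOf (tl.map fun h => .com h.1 h.2)) := by
        refine map_coms E.toMonoidHom tl fun h hh => ?_
        obtain ⟨⟨n1, n2, n3⟩, n4, n5, n6⟩ := tlne h hh
        exact ⟨Eo _ n1 n2 n3, Eo _ n4 n5 n6⟩
      rw [List.map_cons, wordOf_cons, wordOf_cons, MulEquiv.trans_apply,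
        mk_com, mk_sq, List.flatMap_cons, List.append_assoc, wordOf_append]
      rw [wordOf_cons, mk_sq] at f2
      have h2 : mk (wordOf ([.sq a, .sq b] : List (Piece L B))) =
          of (.inl a) * of (.inl a) * (of (.inl b) * of (.inl b)) := rfl
      rw [h2, ← f2]
      simp only [_root_.map_mul, _root_.map_inv, hrest, Ec, Ea, Eb, Fa, Fb, mul_assoc, mul_inv_rev,
        _root_.inv_inv, inv_mul_cancel_left, mul_inv_cancel_left]
    · rw [MulEquiv.trans_apply, Ec, _root_.map_mul, _root_.map_mul, Fa, Fb]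
      have e1 := nm (of (.inl a) * of (.inl b)) (F (of (.inl c)))
      have e2 := nm (of (.inl a)) (of (.inl b) : FreeGroup (L ⊕ B))
      simp only [norm_of] at e2
      simp only [List.length_cons]
      omega
    · intro x
      rw [MulEquiv.trans_apply]
      simp only [List.length_cons]
      by_cases hc : x = .inl c
      · rw [hc, Ec, _root_.map_mul, _root_.map_mul, Fa, Fb]
        have e1 := nm (of (.inl a) * of (.inl b)) (F (of (.inl c)))
        have e2 := nm (of (.inl a)) (of (.inl b) : FreeGroup (L ⊕ B))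
        simp only [norm_of] at e2
        omega
      by_cases ha : x = .inl a
      · rw [ha, Ea, _root_.map_mul, _root_.map_mul, _root_.map_mul, _root_.map_inv, _root_.map_inv, _root_.map_inv, Fa, Fb]
        have e1 := nm ((F (of (.inl c)))⁻¹ * (of (.inl b))⁻¹ * (of (.inl a))⁻¹) (F (of (.inl c)))
        have e2 := nm ((F (of (.inl c)))⁻¹ * (of (.inl b))⁻¹) (of (.inl a))⁻¹
        have e3 := nm (F (of (.inl c)))⁻¹ (of (.inl b))⁻¹
        simp only [norm_of, norm_inv_eq] at e1 e2 e3
        omega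
      by_cases hb : x = .inl b
      · rw [hb, Eb, _root_.map_mul, _root_.map_mul, _root_.map_mul, _root_.map_inv, _root_.map_inv, Fb]
        have e1 := nm ((F (of (.inl c)))⁻¹ * (F (of (.inl c)))⁻¹ * (of (.inl b))⁻¹)
          (F (of (.inl c)))
        have e2 := nm ((F (of (.inl c)))⁻¹ * (F (of (.inl c)))⁻¹) (of (.inl b))⁻¹
        have e3 := nm (F (of (.inl c)))⁻¹ (F (of (.inl c)))⁻¹
        simp only [norm_of, norm_inv_eq] at e1 e2 e3
        omega
      · rw [Eo x hc ha hb]
        have := f4 x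
        omega
    · intro x
      have hsy : (E.trans F).symm (of x) = E.symm (F.symm (of x)) := rfl
      rw [hsy]
      simp only [invC]
      by_cases ha : x = .inl a
      · have : F.symm (of x) = of x := by
          rw [MulEquiv.symm_apply_eq, ha]; exact Fa.symm
        rw [this, ha, if_pos rfl, Ga]
      by_cases hb : x = .inl b
      · have : F.symm (of x) = of x := by
          rw [MulEquiv.symm_apply_eq, hb]; exact Fb.symm
        rw [this, if_neg ha, if_pos hb, hb, Gb]
      · rw [if_neg ha, if_neg hb, f5 x]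
        have key := invC_map c E.symm.toMonoidHom tl (fun h hh => by
          obtain ⟨⟨n1, n2, n3⟩, n4, n5, n6⟩ := tlne h hh
          exact ⟨Go _ n1 n2 n3, Go _ n4 n5 n6⟩) (of (.inl c)) x (by
            by_cases hc : x = .inl c
            · exact Or.inl hc
            · exact Or.inr (Go x hc ha hb))
        have k2 : E.symm.toMonoidHom (of (.inl c)) = of (.inl c) * of (.inl a) := Gc
        rw [k2] at key
        exact key

end CR75

theorem cross : CrossStatement := by
  intro L B _ _ c hs hnd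
  obtain ⟨f, f1, f2, f3, f4, f5⟩ := CR75.main (B := B) c hs hnd
  refine ⟨f, f1, f2, fun x => ?_, fun x => ?_⟩
  · have := f4 x
    omega
  · rw [f5 x]
    have := CR75.invC_norm c hs (of (.inl c) : FreeGroup (L ⊕ B)) x
    rw [norm_of] at this
    omega

end Pool.Agent.Helper35_WH
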