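import Pool.Agent.Helper75_WH.CROSS

/-!
# Module FLIP: directions of the sides in the presence of a crosscap
-/

namespace Pool.Agent.Helper35_WH

open FreeGroup

namespace FL75

set_option linter.unusedSectionVars false
set_option linter.unusedSimpArgs false

variable {L B : Type} [DecidableEq L] [DecidableEq B]

/-- a directed side as an element -/
def sg (j : B) (s : Bool) : FreeGroup (L ⊕ B) := if s then of (.inr j) else (of (.inr j))⁻¹

theorem sg_norm (j : B) (s : Bool) : (sg j s : FreeGroup (L ⊕ B)).norm = 1 := by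
  cases s <;> simp [sg]

theorem sg_not (j : B) (s : Bool) : (sg j (!s) : FreeGroup (L ⊕ B)) = (sg j s)⁻¹ := by
  cases s <;> simp [sg]

theorem map_sg (g : FreeGroup (L ⊕ B) →* FreeGroup (L ⊕ B)) (j : B)
    (hg : g (of (.inr j)) = of (.inr j)) (s : Bool) : g (sg j s) = sg j s := by
  cases s <;> simp [sg, hg]

/-- flip of a side -/
def aF (c t : L) (j : B) (s : Bool) : FreeGroup (L ⊕ B) →* FreeGroup (L ⊕ B) :=
  lift fun x => if x = .inl c then of (.inl t) * (sg j s)⁻¹ * (of (.inl t))⁻¹ * of (.inl c) else
    if x = .inl t then (of (.inl c))⁻¹ * of (.inl t) else of x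

/-- its inverse -/
def aG (c t : L) (j : B) (s : Bool) : FreeGroup (L ⊕ B) →* FreeGroup (L ⊕ B) :=
  lift fun x => if x = .inl c then of (.inl c) * of (.inl t) * sg j s * (of (.inl t))⁻¹ else
    if x = .inl t then of (.inl c) * of (.inl t) * sg j s else of x

/-- a side passes a crosscap -/
def bF (c t : L) : FreeGroup (L ⊕ B) →* FreeGroup (L ⊕ B) :=
  lift fun x => if x = .inl t then (of (.inl c))⁻¹ * (of (.inl c))⁻¹ * of (.inl t) else of x

/-- its inverse -/
def bG (c t : L) : FreeGroup (L ⊕ B) →* FreeGroup (L ⊕ B) :=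
  lift fun x => if x = .inl t then of (.inl c) * of (.inl c) * of (.inl t) else of x

theorem aG_aF (c t : L) (j : B) (s : Bool) (h : t ≠ c) :
    (aG c t j s).comp (aF c t j s) = MonoidHom.id _ := by
  apply ext_hom
  intro x
  by_cases hc : x = .inl c
  · subst hc; cases s <;> simp [aG, aF, h, sg, mul_assoc]
  by_cases ha : x = .inl t
  · subst ha; cases s <;> simp [aG, aF, h, sg, mul_assoc]
  simp [aG, aF, hc, ha]

theorem aF_aG (c t : L) (j : B) (s : Bool) (h : t ≠ c) :
    (aF c t j s).comp (aG c t j s) = MonoidHom.id _ := by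
  apply ext_hom
  intro x
  by_cases hc : x = .inl c
  · subst hc; cases s <;> simp [aG, aF, h, sg, mul_assoc]
  by_cases ha : x = .inl t
  · subst ha; cases s <;> simp [aG, aF, h, sg, mul_assoc]
  simp [aG, aF, hc, ha]

theorem bG_bF (c t : L) (h : c ≠ t) :
    (bG (B := B) c t).comp (bF c t) = MonoidHom.id _ := by
  apply ext_hom
  intro x
  by_cases ha : x = .inl t
  · subst ha; simp [bG, bF, h, mul_assoc]
  simp [bG, bF, ha]

theorem bF_bG (c t : L) (h : c ≠ t) :
    (bF (B := B) c t).comp (bG c t) = MonoidHom.id _ := by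
  apply ext_hom
  intro x
  by_cases ha : x = .inl t
  · subst ha; simp [bG, bF, h, mul_assoc]
  simp [bG, bF, ha]

/-- the automorphism for a flip -/
def aE (c t : L) (j : B) (s : Bool) (h : t ≠ c) : FreeGroup (L ⊕ B) ≃* FreeGroup (L ⊕ B) :=
  MonoidHom.toMulEquiv (aF c t j s) (aG c t j s) (aG_aF c t j s h) (aF_aG c t j s h)

/-- the automorphism for a pass -/
def bE (c t : L) (h : t ≠ c) : FreeGroup (L ⊕ B) ≃* FreeGroup (L ⊕ B) :=
  MonoidHom.toMulEquiv (bF c t) (bG c t) (bG_bF c t h.symm) (bF_bG c t h.symm)

/-- the inverse automorphism on generators -/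
def invD (c : L) (tgt : B → Bool) :
    FreeGroup (L ⊕ B) → List (L × B × Bool) → L ⊕ B → FreeGroup (L ⊕ B)
  | Y, [], x => if x = .inl c then Y else of x
  | Y, d :: tl, x =>
    if d.2.2 = tgt d.2.1 then
      (if x = .inl d.1 then Y * Y * of (.inl d.1) else invD c tgt Y tl x)
    else
      (if x = .inl d.1 then Y * of (.inl d.1) * sg d.2.1 d.2.2 else
        invD c tgt (Y * of (.inl d.1) * sg d.2.1 d.2.2 * (of (.inl d.1))⁻¹) tl x)

theorem invD_map (c : L) (tgt : B → Bool) (g : FreeGroup (L ⊕ B) →* FreeGroup (L ⊕ B))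
    (hj : ∀ j, g (of (.inr j)) = of (.inr j)) (ds : List (L × B × Bool))
    (hg : ∀ d ∈ ds, g (of (.inl d.1)) = of (.inl d.1)) :
    ∀ (Y : FreeGroup (L ⊕ B)) (x : L ⊕ B), (x = .inl c ∨ g (of x) = of x) →
      g (invD c tgt Y ds x) = invD c tgt (g Y) ds x := by
  induction ds with
  | nil =>
    intro Y x hx
    simp only [invD]
    by_cases h : x = .inl c
    · simp [h]
    · simp only [h, if_false]
      rcases hx with hx | hx
      · exact absurd hx h
      · exact hx
  | cons d tl ih =>
    intro Y x hx
    have g1 := hg d (by simp)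
    have ih' := ih (fun d' hd => hg d' (by simp [hd]))
    simp only [invD]
    by_cases h0 : d.2.2 = tgt d.2.1
    · rw [if_pos h0, if_pos h0]
      by_cases h1 : x = .inl d.1
      · simp [h1, g1]
      · rw [if_neg h1, if_neg h1, ih' Y x hx]
    · rw [if_neg h0, if_neg h0]
      by_cases h1 : x = .inl d.1
      · simp [h1, g1, map_sg g _ (hj _)]
      · rw [if_neg h1, if_neg h1, ih' _ x hx]
        simp only [_root_.map_mul, _root_.map_inv, g1, map_sg g _ (hj _)]

theorem invD_norm (c : L) (tgt : B → Bool) (ds : List (L × B × Bool)) :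
    ∀ (Y : FreeGroup (L ⊕ B)) (x : L ⊕ B),
    (invD c tgt Y ds x).norm ≤ 2 * Y.norm + 6 * ds.length + 4 := by
  induction ds with
  | nil =>
    intro Y x
    simp only [invD]
    split_ifs
    · simp; omega
    · simp
  | cons d tl ih =>
    intro Y x
    simp only [invD]
    have nm := @norm_mul_le (L ⊕ B) _
    simp only [List.length_cons]
    split_ifs
    · have e1 := nm (Y * Y) (of (.inl d.1))
      have e2 := nm Y Y
      simp only [norm_of] at e1
      omega
    · have := ih Y x
      omega
    · have e1 := nm (Y * of (.inl d.1)) (sg d.2.1 d.2.2)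
      have e2 := nm Y (of (.inl d.1))
      simp only [norm_of, sg_norm] at e1 e2
      omega
    · have e0 := ih (Y * of (.inl d.1) * sg d.2.1 d.2.2 * (of (.inl d.1))⁻¹) x
      have e1 := nm (Y * of (.inl d.1) * sg d.2.1 d.2.2) (of (.inl d.1))⁻¹
      have e2 := nm (Y * of (.inl d.1)) (sg d.2.1 d.2.2)
      have e3 := nm Y (of (.inl d.1))
      simp only [norm_of, norm_inv_eq, sg_norm] at e1 e2 e3
      omega

theorem mk_bd (t : L) (j : B) (s : Bool) : mk (Piece.word (.bd t j s)) =
    of (.inl t) * sg j s * (of (.inl t))⁻¹ := by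
  cases s <;> rfl

/-- a homomorphism which fixes the letters of a list of sides -/
theorem map_bds (g : FreeGroup (L ⊕ B) →* FreeGroup (L ⊕ B))
    (hj : ∀ j, g (of (.inr j)) = of (.inr j)) (ds : List (L × B × Bool))
    (hg : ∀ d ∈ ds, g (of (.inl d.1)) = of (.inl d.1)) :
    g (mk (wordOf (ds.map fun d => .bd d.1 d.2.1 d.2.2))) =
      mk (wordOf (ds.map fun d => .bd d.1 d.2.1 d.2.2)) := by
  induction ds with
  | nil => exact g.map_one
  | cons d tl ih =>
    rw [List.map_cons, CR75.wordOf_cons, _root_.map_mul,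
      ih (fun d' hd => hg d' (by simp [hd])), mk_bd]
    have g1 := hg d (by simp)
    simp [g1, map_sg g _ (hj _)]

theorem main (c : L) (tgt : B → Bool) (ds : List (L × B × Bool))
    (hnd : (c :: ds.map fun d => d.1).Nodup) :
    ∃ f : FreeGroup (L ⊕ B) ≃* FreeGroup (L ⊕ B),
      (∀ x : L ⊕ B, (∀ y ∈ c :: ds.map (fun d => d.1), x ≠ .inl y) → f (of x) = of x) ∧
      f (mk (wordOf (.sq c :: ds.map fun d => .bd d.1 d.2.1 d.2.2))) =
        mk (wordOf ((ds.map fun d => .bd d.1 d.2.1 (tgt d.2.1)) ++ [.sq c])) ∧
      (f (of (.inl c))).norm ≤ 3 * ds.length + 1 ∧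
      (∀ x, (f (of x)).norm ≤ 6 * ds.length + 1) ∧
      ∀ x, f.symm (of x) = invD c tgt (of (.inl c)) ds x := by
  induction ds with
  | nil =>
    refine ⟨MulEquiv.refl _, fun x _ => rfl, rfl, by simp, fun x => by simp, fun x => ?_⟩
    simp only [invD]
    split_ifs with h
    · rw [h]; rfl
    · rfl
  | cons d tl ih =>
    obtain ⟨t, j, s⟩ := d
    simp only [List.map_cons, List.nodup_cons, List.mem_cons, not_or] at hnd
    obtain ⟨⟨hct', hct⟩, htt, hnt⟩ := hnd
    obtain ⟨F, f1, f2, f3, f4, f5⟩ := ih (List.nodup_cons.2 ⟨hct, hnt⟩)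
    have htc : t ≠ c := fun h => hct' h.symm
    have it : (Sum.inl t : L ⊕ B) ≠ .inl c := fun h => htc (Sum.inl.inj h)
    have Ft : F (of (.inl t)) = of (.inl t) := f1 _ fun y hy hh => by
      rcases List.mem_cons.1 hy with rfl | hy
      · exact it hh
      · exact htt (Sum.inl.inj hh ▸ hy)
    have Fj : ∀ j : B, F (of (.inr j)) = of (.inr j) := fun j => f1 _ fun y hy hh => by
      simp at hh
    have Fs : F (sg j s) = sg j s := map_sg F.toMonoidHom j (Fj j) s
    have tlne : ∀ d ∈ tl, (Sum.inl d.1 : L ⊕ B) ≠ .inl c ∧ (Sum.inl d.1 : L ⊕ B) ≠ .inl t := by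
      intro d hd
      have m1 : d.1 ∈ tl.map fun d => d.1 := List.mem_map.2 ⟨d, hd, rfl⟩
      exact ⟨fun e => hct (Sum.inl.inj e ▸ m1), fun e => htt (Sum.inl.inj e ▸ m1)⟩
    have nm := @norm_mul_le (L ⊕ B) _
    rw [CR75.wordOf_cons, CR75.mk_sq] at f2
    by_cases h0 : s = tgt j
    · -- no flip
      set E := bE (B := B) c t htc with hEdef
      have Et : E (of (.inl t)) = (of (.inl c))⁻¹ * (of (.inl c))⁻¹ * of (.inl t) := by
        simp [hEdef, bE, bF]
      have Eo : ∀ x : L ⊕ B, x ≠ .inl t → E (of x) = of x := by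
        intro x h1
        simp [hEdef, bE, bF, h1]
      have Ec : E (of (.inl c)) = of (.inl c) := Eo _ it.symm
      have Gt : E.symm (of (.inl t)) = of (.inl c) * of (.inl c) * of (.inl t) := by
        simp [hEdef, bE, bG]
      have Go : ∀ x : L ⊕ B, x ≠ .inl t → E.symm (of x) = of x := by
        intro x h1
        simp [hEdef, bE, bG, h1]
      have Es : E (sg j s) = sg j s := map_sg E.toMonoidHom j (Eo _ (by simp)) s
      refine ⟨E.trans F, ?_, ?_, ?_, ?_, ?_⟩
      · intro x hx
        have h1 := hx t (by simp)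
        rw [MulEquiv.trans_apply, Eo x h1]
        refine f1 x fun y hy => hx y ?_
        rcases List.mem_cons.1 hy with rfl | hy
        · simp
        · simp [hy]
      · have hrest : E (mk (wordOf (tl.map fun d => .bd d.1 d.2.1 d.2.2))) =
            mk (wordOf (tl.map fun d => .bd d.1 d.2.1 d.2.2)) :=
          map_bds E.toMonoidHom (fun j => Eo _ (by simp)) tl fun d hd => Eo _ (tlne d hd).2
        rw [List.map_cons, List.map_cons, List.cons_append, CR75.wordOf_cons, CR75.wordOf_cons,
          CR75.wordOf_cons, MulEquiv.trans_apply, mk_bd, mk_bd, CR75.mk_sq, ← f2]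
        simp only [_root_.map_mul, _root_.map_inv, hrest, Ec, Et, Es, Ft, Fs, mul_assoc,
          mul_inv_rev, _root_.inv_inv, inv_mul_cancel_left, mul_inv_cancel_left, ← h0]
      · rw [MulEquiv.trans_apply, Ec]
        simp only [List.length_cons]
        omega
      · intro x
        rw [MulEquiv.trans_apply]
        simp only [List.length_cons]
        by_cases ht : x = .inl t
        · rw [ht, Et, _root_.map_mul, _root_.map_mul, _root_.map_inv, Ft]
          have e1 := nm ((F (of (.inl c)))⁻¹ * (F (of (.inl c)))⁻¹) (of (.inl t))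
          have e2 := nm (F (of (.inl c)))⁻¹ (F (of (.inl c)))⁻¹
          simp only [norm_of, norm_inv_eq] at e1 e2
          omega
        · rw [Eo x ht]
          have := f4 x
          omega
      · intro x
        have hsy : (E.trans F).symm (of x) = E.symm (F.symm (of x)) := rfl
        rw [hsy]
        simp only [invD]
        rw [if_pos h0]
        by_cases ht : x = .inl t
        · have : F.symm (of x) = of x := by
            rw [MulEquiv.symm_apply_eq, ht]; exact Ft.symm
          rw [this, ht, if_pos rfl, Gt]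
        · rw [if_neg ht, f5 x]
          have key := invD_map c tgt E.symm.toMonoidHom (fun j => Go _ (by simp)) tl
            (fun d hd => Go _ (tlne d hd).2) (of (.inl c)) x (Or.inr (Go x ht))
          have k2 : E.symm.toMonoidHom (of (.inl c)) = of (.inl c) := Go _ it.symm
          rw [k2] at key
          exact key
    · -- flip
      set E := aE c t j s htc with hEdef
      have Ec : E (of (.inl c)) = of (.inl t) * (sg j s)⁻¹ * (of (.inl t))⁻¹ * of (.inl c) := by
        simp [hEdef, aE, aF]
      have Et : E (of (.inl t)) = (of (.inl c))⁻¹ * of (.inl t) := by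
        simp [hEdef, aE, aF, htc]
      have Eo : ∀ x : L ⊕ B, x ≠ .inl c → x ≠ .inl t → E (of x) = of x := by
        intro x h1 h2
        simp [hEdef, aE, aF, h1, h2]
      have Gc : E.symm (of (.inl c)) = of (.inl c) * of (.inl t) * sg j s * (of (.inl t))⁻¹ := by
        simp [hEdef, aE, aG]
      have Gt : E.symm (of (.inl t)) = of (.inl c) * of (.inl t) * sg j s := by
        simp [hEdef, aE, aG, htc]
      have Go : ∀ x : L ⊕ B, x ≠ .inl c → x ≠ .inl t → E.symm (of x) = of x := by
        intro x h1 h2
        simp [hEdef, aE, aG, h1, h2]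
      have Es : E (sg j s) = sg j s := map_sg E.toMonoidHom j (Eo _ (by simp) (by simp)) s
      have htg : tgt j = !s := by
        cases s <;> cases h : tgt j <;> simp_all
      have hsn : (sg j (tgt j) : FreeGroup (L ⊕ B)) = (sg j s)⁻¹ := by rw [htg, sg_not]
      refine ⟨E.trans F, ?_, ?_, ?_, ?_, ?_⟩
      · intro x hx
        have h1 := hx c (by simp)
        have h2 := hx t (by simp)
        rw [MulEquiv.trans_apply, Eo x h1 h2]
        refine f1 x fun y hy => hx y ?_
        rcases List.mem_cons.1 hy with rfl | hy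
        · simp
        · simp [hy]
      · have hrest : E (mk (wordOf (tl.map fun d => .bd d.1 d.2.1 d.2.2))) =
            mk (wordOf (tl.map fun d => .bd d.1 d.2.1 d.2.2)) :=
          map_bds E.toMonoidHom (fun j => Eo _ (by simp) (by simp)) tl
            fun d hd => Eo _ (tlne d hd).1 (tlne d hd).2
        rw [List.map_cons, List.map_cons, List.cons_append, CR75.wordOf_cons, CR75.wordOf_cons,
          CR75.wordOf_cons, MulEquiv.trans_apply, mk_bd, mk_bd, CR75.mk_sq, ← f2, hsn]
        simp only [_root_.map_mul, _root_.map_inv, hrest, Ec, Et, Es, Ft, Fs, mul_assoc,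
          mul_inv_rev, _root_.inv_inv, inv_mul_cancel_left, mul_inv_cancel_left]
      · rw [MulEquiv.trans_apply, Ec, _root_.map_mul, _root_.map_mul, _root_.map_mul,
          _root_.map_inv, _root_.map_inv, Ft, Fs]
        have e1 := nm (of (.inl t) * (sg j s)⁻¹ * (of (.inl t))⁻¹) (F (of (.inl c)))
        have e2 := nm (of (.inl t) * (sg j s)⁻¹) (of (.inl t))⁻¹
        have e3 := nm (of (.inl t)) (sg j s)⁻¹
        simp only [norm_of, norm_inv_eq, sg_norm] at e1 e2 e3
        simp only [List.length_cons]
        omega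
      · intro x
        rw [MulEquiv.trans_apply]
        simp only [List.length_cons]
        by_cases hc : x = .inl c
        · rw [hc, Ec, _root_.map_mul, _root_.map_mul, _root_.map_mul,
            _root_.map_inv, _root_.map_inv, Ft, Fs]
          have e1 := nm (of (.inl t) * (sg j s)⁻¹ * (of (.inl t))⁻¹) (F (of (.inl c)))
          have e2 := nm (of (.inl t) * (sg j s)⁻¹) (of (.inl t))⁻¹
          have e3 := nm (of (.inl t)) (sg j s)⁻¹
          simp only [norm_of, norm_inv_eq, sg_norm] at e1 e2 e3
          omega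
        by_cases ht : x = .inl t
        · rw [ht, Et, _root_.map_mul, _root_.map_inv, Ft]
          have e1 := nm (F (of (.inl c)))⁻¹ (of (.inl t))
          simp only [norm_of, norm_inv_eq] at e1
          omega
        · rw [Eo x hc ht]
          have := f4 x
          omega
      · intro x
        have hsy : (E.trans F).symm (of x) = E.symm (F.symm (of x)) := rfl
        rw [hsy]
        simp only [invD]
        rw [if_neg h0]
        by_cases ht : x = .inl t
        · have : F.symm (of x) = of x := by
            rw [MulEquiv.symm_apply_eq, ht]; exact Ft.symm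
          rw [this, ht, if_pos rfl, Gt]
        · rw [if_neg ht, f5 x]
          have key := invD_map c tgt E.symm.toMonoidHom (fun j => Go _ (by simp) (by simp)) tl
            (fun d hd => Go _ (tlne d hd).1 (tlne d hd).2) (of (.inl c)) x (by
              by_cases hc : x = .inl c
              · exact Or.inl hc
              · exact Or.inr (Go x hc ht))
          have k2 : E.symm.toMonoidHom (of (.inl c)) =
            of (.inl c) * of (.inl t) * sg j s * (of (.inl t))⁻¹ := Gc
          rw [k2] at key
          exact key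

end FL75

theorem flip : FlipStatement := by
  intro L B _ _ c ds tgt hnd
  obtain ⟨f, f1, f2, f3, f4, f5⟩ := FL75.main c tgt ds hnd
  refine ⟨f, f1, f2, fun x => ?_, fun x => ?_⟩
  · have := f4 x
    omega
  · rw [f5 x]
    have := FL75.invD_norm c tgt ds (of (.inl c) : FreeGroup (L ⊕ B)) x
    rw [norm_of] at this
    omega

end Pool.Agent.Helper35_WH
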