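import Mathlib

/-!
# Orbits of two involutions without fixed points
-/

namespace Pool.Agent.Helper35_WH

namespace DH75

variable {E : Type} (s f : E → E)

/-- one double step: first `f`, then `s` -/
def rho (e : E) : E := s (f e)

/-- two involutions without fixed points -/
structure Inv2 : Prop where
  ss : ∀ e, s (s e) = e
  ff : ∀ e, f (f e) = e
  s_ne : ∀ e, s e ≠ e
  f_ne : ∀ e, f e ≠ e

variable {s f}

theorem Inv2.inj (h : Inv2 s f) : Function.Injective (rho s f) := by
  intro a b hab
  have h1 := congrArg s hab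
  simp only [rho, h.ss] at h1
  have h2 := congrArg f h1
  simpa only [h.ff] using h2

theorem rho_succ (m : E) (i : ℕ) : (rho s f)^[i + 1] m = s (f ((rho s f)^[i] m)) := by
  rw [Function.iterate_succ_apply']; rfl

theorem Inv2.disj1 (h : Inv2 s f) (m : E) : ∀ n j : ℕ,
    (rho s f)^[j + n] m ≠ f ((rho s f)^[j] m) := by
  intro n
  induction n using Nat.strong_induction_on with
  | _ n ih =>
    intro j hj
    rcases n with _ | _ | n
    · exact h.f_ne _ hj.symm
    · have h1 := rho_succ (s := s) (f := f) m j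
      rw [show j + (0 + 1) = j + 1 by ring, h1] at hj
      exact h.s_ne _ hj
    · refine ih n (by omega) (j + 1) ?_
      have h1 := rho_succ (s := s) (f := f) m (j + n + 1)
      rw [show j + (n + 1 + 1) = j + n + 1 + 1 by ring, h1] at hj
      have h2 := congrArg s hj
      rw [h.ss, ← rho_succ (s := s) (f := f)] at h2
      have h3 := congrArg f h2
      rw [h.ff] at h3
      rw [show j + 1 + n = j + n + 1 by ring]
      exact h3

/-- the two halves of an orbit are disjoint -/
theorem Inv2.disj (h : Inv2 s f) (m : E) (i j : ℕ) :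
    (rho s f)^[i] m ≠ f ((rho s f)^[j] m) := by
  rcases le_total j i with hij | hij
  · obtain ⟨n, rfl⟩ := Nat.exists_eq_add_of_le hij
    exact h.disj1 m n j
  · obtain ⟨n, rfl⟩ := Nat.exists_eq_add_of_le hij
    intro hh
    have h2 := congrArg f hh
    rw [h.ff] at h2
    exact h.disj1 m n i h2.symm

variable (s f) in
/-- half of the length of the orbit -/
noncomputable def per (m : E) : ℕ := Function.minimalPeriod (rho s f) m

variable [Finite E]

theorem Inv2.per_pos (h : Inv2 s f) (m : E) : 0 < per s f m :=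
  Function.minimalPeriod_pos_of_mem_periodicPts (h.inj.mem_periodicPts m)

omit [Finite E] in
theorem iter_per (m : E) : (rho s f)^[per s f m] m = m := Function.iterate_minimalPeriod

omit [Finite E] in
theorem iter_inj (m : E) {i j : ℕ} (hi : i < per s f m) (hj : j < per s f m)
    (h : (rho s f)^[i] m = (rho s f)^[j] m) : i = j :=
  Function.iterate_injOn_Iio_minimalPeriod hi hj h

theorem Inv2.s_m (h : Inv2 s f) (m : E) : s m = f ((rho s f)^[per s f m - 1] m) := by
  have h1 := rho_succ (s := s) (f := f) m (per s f m - 1)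
  rw [Nat.sub_add_cancel (h.per_pos m), iter_per] at h1
  rw [h1, h.ss, ← h1]

/-- the elements of the orbit -/
theorem Inv2.mem (h : Inv2 s f) (m e : E)
    (he : ∀ P : E → Prop, (∀ e, P e → P (s e)) → (∀ e, P e → P (f e)) → P m → P e) :
    ∃ i < per s f m, e = (rho s f)^[i] m ∨ e = f ((rho s f)^[i] m) := by
  have hp := h.per_pos m
  refine he (fun e => ∃ i < per s f m, e = (rho s f)^[i] m ∨ e = f ((rho s f)^[i] m)) ?_ ?_ ?_
  · rintro e ⟨i, hi, rfl | rfl⟩
    · rcases i with _ | i
      · exact ⟨per s f m - 1, by omega, Or.inr (h.s_m m)⟩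
      · exact ⟨i, by omega, Or.inr (by rw [rho_succ, h.ss])⟩
    · by_cases hi' : i + 1 < per s f m
      · exact ⟨i + 1, hi', Or.inl (by rw [rho_succ])⟩
      · refine ⟨0, hp, Or.inl ?_⟩
        have : i = per s f m - 1 := by omega
        rw [this, ← h.s_m m, h.ss]; rfl
  · rintro e ⟨i, hi, rfl | rfl⟩
    · exact ⟨i, hi, Or.inr rfl⟩
    · exact ⟨i, hi, Or.inl (h.ff _)⟩
  · exact ⟨0, hp, Or.inl rfl⟩

theorem Inv2.card {E : Type} {s f : E → E} [Fintype E] (h : Inv2 s f) (m : E) :
    2 * per s f m ≤ Fintype.card E := by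
  classical
  have hinj : Function.Injective (fun x : Bool × Fin (per s f m) =>
      if x.1 then f ((rho s f)^[x.2.1] m) else (rho s f)^[x.2.1] m) := by
    rintro ⟨a, i⟩ ⟨b, j⟩ hab
    simp only at hab
    cases a <;> cases b <;> simp only [if_true, Bool.false_eq_true, if_false] at hab
    · rw [Prod.mk.injEq]
      exact ⟨rfl, Fin.ext (iter_inj m i.2 j.2 hab)⟩
    · exact absurd hab (h.disj m _ _)
    · exact absurd hab.symm (h.disj m _ _)
    · have h2 := congrArg f hab
      rw [h.ff, h.ff] at h2
      rw [Prod.mk.injEq]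
      exact ⟨rfl, Fin.ext (iter_inj m i.2 j.2 h2)⟩
  have := Fintype.card_le_of_injective _ hinj
  simpa using this

end DH75

end Pool.Agent.Helper35_WH
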