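import Pool.Agent.Helper35_WH.Stmt3
import Pool.Agent.Helper75_WH.Dih

/-!
# Module MARKS: marks on the boundary circles
-/

namespace Pool.Agent.Helper35_WH

open FreeGroup DH75

namespace MK75

variable {R : Rim}

theorem inv2 (R : Rim) : Inv2 R.σ R.φ := ⟨R.σσ, R.φφ, R.σ_ne, R.φ_ne⟩

/-- the circles -/
def cs (R : Rim) : Setoid R.E :=
  Relation.EqvGen.setoid (fun e e' => e' = R.σ e ∨ e' = R.φ e)

theorem cs_inv {α : Type} {f : R.E → α} (hf : R.Inv f) {e e' : R.E} (h : (cs R) e e') :
    f e = f e' := by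
  have h' : Relation.EqvGen (fun e e' => e' = R.σ e ∨ e' = R.φ e) e e' := h
  induction h' with
  | rel x y hxy =>
    rcases hxy with rfl | rfl
    · exact (hf.1 _).symm
    · exact (hf.2 _).symm
  | refl x => rfl
  | symm x y _ ih => exact (ih (by assumption)).symm
  | trans x y z _ _ ih1 ih2 => exact (ih1 (by assumption)).trans (ih2 (by assumption))

theorem cs_mem (m e : R.E) (h : (cs R) m e) :
    ∃ i < per R.σ R.φ m, e = (rho R.σ R.φ)^[i] m ∨ e = R.φ ((rho R.σ R.φ)^[i] m) := by
  refine (inv2 R).mem m e fun P hσ hφ hm => ?_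
  have hi : R.Inv P := by
    constructor
    · intro x
      exact propext ⟨fun hx => by have := hσ _ hx; rwa [R.σσ] at this, hσ x⟩
    · intro x
      exact propext ⟨fun hx => by have := hφ _ hx; rwa [R.φφ] at this, hφ x⟩
  have := cs_inv hi h
  rw [← this]; exact hm

/-- the product of the sides from `m` on -/
def wd (m : R.E) : ℕ → FreeGroup R.E
  | 0 => 1
  | i + 1 => wd m i * of ((rho R.σ R.φ)^[i] m)

theorem wd_norm (m : R.E) (i : ℕ) : (wd m i).norm ≤ i := by
  induction i with
  | zero => simp [wd]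
  | succ i ih =>
    have := norm_mul_le (wd m i) (of ((rho R.σ R.φ)^[i] m))
    rw [norm_of] at this
    simp only [wd]
    omega

open Classical in
/-- the potential along the circle of `m` -/
noncomputable def uu (m e : R.E) : FreeGroup R.E :=
  if h : ∃ i, i < per R.σ R.φ m ∧ e = (rho R.σ R.φ)^[i] m then wd m h.choose else
    if h : ∃ i, i < per R.σ R.φ m ∧ e = R.φ ((rho R.σ R.φ)^[i] m) then wd m (h.choose + 1) else 1

theorem uu_a (m : R.E) {i : ℕ} (hi : i < per R.σ R.φ m) :
    uu m ((rho R.σ R.φ)^[i] m) = wd m i := by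
  have h : ∃ j, j < per R.σ R.φ m ∧ (rho R.σ R.φ)^[i] m = (rho R.σ R.φ)^[j] m := ⟨i, hi, rfl⟩
  unfold uu
  rw [dif_pos h, ← iter_inj m hi h.choose_spec.1 h.choose_spec.2]

theorem uu_b (m : R.E) {i : ℕ} (hi : i < per R.σ R.φ m) :
    uu m (R.φ ((rho R.σ R.φ)^[i] m)) = wd m (i + 1) := by
  have h0 : ¬ ∃ j, j < per R.σ R.φ m ∧ R.φ ((rho R.σ R.φ)^[i] m) = (rho R.σ R.φ)^[j] m := by
    rintro ⟨j, _, hj⟩
    exact (inv2 R).disj m j i hj.symm
  have h : ∃ j, j < per R.σ R.φ m ∧
    R.φ ((rho R.σ R.φ)^[i] m) = R.φ ((rho R.σ R.φ)^[j] m) := ⟨i, hi, rfl⟩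
  unfold uu
  rw [dif_neg h0, dif_pos h]
  have h2 := congrArg R.φ h.choose_spec.2
  rw [R.φφ, R.φφ] at h2
  rw [← iter_inj m hi h.choose_spec.1 h2]

theorem posu (m e : R.E) (h : (cs R) m e) : ∃ i < per R.σ R.φ m,
    (e = (rho R.σ R.φ)^[i] m ∧ uu m e = wd m i) ∨
      (e = R.φ ((rho R.σ R.φ)^[i] m) ∧ uu m e = wd m (i + 1)) := by
  obtain ⟨i, hi, rfl | rfl⟩ := cs_mem m e h
  · exact ⟨i, hi, Or.inl ⟨rfl, uu_a m hi⟩⟩
  · exact ⟨i, hi, Or.inr ⟨rfl, uu_b m hi⟩⟩

theorem uu_φ {M : Type} [Group M] (b : R.E → M) (hb : R.Bd b) (m e : R.E) (h : (cs R) m e) :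
    FreeGroup.lift b (uu m (R.φ e)) = FreeGroup.lift b (uu m e) * b e := by
  obtain ⟨i, hi, rfl | rfl⟩ := cs_mem m e h
  · rw [uu_a m hi, uu_b m hi]
    simp [wd]
  · rw [R.φφ, uu_a m hi, uu_b m hi, hb]
    simp [wd]

theorem uu_σ (m e : R.E) (h : (cs R) m e) (h1 : e ≠ m) (h2 : e ≠ R.σ m) :
    uu m (R.σ e) = uu m e := by
  obtain ⟨i, hi, rfl | rfl⟩ := cs_mem m e h
  · rcases i with _ | i
    · exact absurd rfl h1
    · rw [uu_a m hi, rho_succ, R.σσ, uu_b m (by omega)]
  · have hi' : i + 1 < per R.σ R.φ m := by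
      by_contra hc
      apply h2
      rw [(inv2 R).s_m m]
      have : i = per R.σ R.φ m - 1 := by omega
      rw [this]
    rw [uu_b m hi, ← rho_succ (s := R.σ) (f := R.φ), uu_a m hi']

theorem uu_m (m : R.E) : uu m m = 1 := uu_a m (i := 0) ((inv2 R).per_pos m)

theorem uu_σm (m : R.E) : uu m (R.σ m) = wd m (per R.σ R.φ m) := by
  have hp := (inv2 R).per_pos m
  rw [(inv2 R).s_m m, uu_b m (by omega)]
  congr 1
  omega

theorem lift_wd {M : Type} [Group M] (b : R.E → M) (m : R.E)
    (h1 : ∀ i, i + 1 < per R.σ R.φ m → b ((rho R.σ R.φ)^[i] m) = 1) :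
    FreeGroup.lift b (wd m (per R.σ R.φ m)) = b (R.φ (R.σ m)) := by
  have hp := (inv2 R).per_pos m
  have key : ∀ i, i < per R.σ R.φ m → FreeGroup.lift b (wd m i) = 1 := by
    intro i
    induction i with
    | zero => intro _; simp [wd]
    | succ i ih =>
      intro hi
      simp only [wd, _root_.map_mul, ih (by omega), lift_apply_of, one_mul]
      exact h1 i hi
  obtain ⟨k, hk⟩ : ∃ k, per R.σ R.φ m = k + 1 := ⟨per R.σ R.φ m - 1, by omega⟩
  rw [hk]
  simp only [wd, _root_.map_mul, key k (by omega), lift_apply_of, one_mul]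
  rw [(inv2 R).s_m m, R.φφ, hk]
  rfl

theorem cs_σ (e : R.E) : (cs R) e (R.σ e) := Relation.EqvGen.rel _ _ (Or.inl rfl)
theorem cs_φ (e : R.E) : (cs R) e (R.φ e) := Relation.EqvGen.rel _ _ (Or.inr rfl)

theorem cs_iter (m : R.E) (i : ℕ) : (cs R) m ((rho R.σ R.φ)^[i] m) := by
  induction i with
  | zero => exact (cs R).refl _
  | succ i ih =>
    rw [rho_succ]
    exact (cs R).trans ih ((cs R).trans (cs_φ _) (cs_σ _))

/-- the quotient and its enumeration -/
noncomputable def qe (e₀ : R.E) : Quotient (cs R) ≃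
    Option (Fin (Nat.card {q : Quotient (cs R) // q ≠ Quotient.mk (cs R) e₀})) := by
  classical
  exact (Equiv.optionSubtypeNe (Quotient.mk (cs R) e₀)).symm.trans
    (Finite.equivFin {q : Quotient (cs R) // q ≠ Quotient.mk (cs R) e₀}).optionCongr

theorem qe_root (e₀ : R.E) : qe e₀ (Quotient.mk (cs R) e₀) = none := by
  classical
  simp [qe]

open Classical in
/-- the mark of a circle -/
noncomputable def mk0 (e₀ : R.E) (q : Quotient (cs R)) : R.E :=
  if q = Quotient.mk (cs R) e₀ then e₀ else q.out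

theorem mk0_spec (e₀ : R.E) (q : Quotient (cs R)) : Quotient.mk (cs R) (mk0 e₀ q) = q := by
  unfold mk0
  split_ifs with h
  · exact h.symm
  · exact Quotient.out_eq q

end MK75

open MK75 in
theorem marks : MarksStatement := by
  classical
  intro R e₀
  set q : R.E → Quotient (cs R) := fun e => Quotient.mk (cs R) e with hq
  have qσ : ∀ e, q (R.σ e) = q e := fun e => Quotient.sound ((cs R).symm (cs_σ e))
  have qφ : ∀ e, q (R.φ e) = q e := fun e => Quotient.sound ((cs R).symm (cs_φ e))
  -- mark of the circle of `e`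
  set mm : R.E → R.E := fun e => mk0 e₀ (q e) with hmm
  have mmσ : ∀ e, mm (R.σ e) = mm e := fun e => by simp only [hmm, qσ]
  have mmφ : ∀ e, mm (R.φ e) = mm e := fun e => by simp only [hmm, qφ]
  have hrel : ∀ e, (cs R) (mm e) e := fun e => Quotient.exact (mk0_spec e₀ (q e))
  have hpos : ∀ e, ∃ i < per R.σ R.φ (mm e), e = (rho R.σ R.φ)^[i] (mm e) ∨
      e = R.φ ((rho R.σ R.φ)^[i] (mm e)) := fun e => cs_mem _ _ (hrel e)
  set mk' : Option (Fin (Nat.card {q : Quotient (cs R) // q ≠ Quotient.mk (cs R) e₀})) → R.E :=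
    fun j => mk0 e₀ ((qe e₀).symm j) with hmk
  have mm_mk : ∀ j, mm (mk' j) = mk' j := by
    intro j
    simp only [hmm, hmk, hq]
    rw [mk0_spec]
  have mk_mm : ∀ e, mk' (qe e₀ (q e)) = mm e := by
    intro e
    simp only [hmk, Equiv.symm_apply_apply]
    rfl
  have circ_mk : ∀ j, qe e₀ (q (mk' j)) = j := by
    intro j
    simp only [hmk, hq]
    rw [mk0_spec, Equiv.apply_symm_apply]
  -- the marks seen from an element
  have off : ∀ e, e ≠ mm e → e ≠ R.σ (mm e) → ∀ j, e ≠ mk' j ∧ e ≠ R.σ (mk' j) := by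
    intro e h1 h2 j
    constructor
    · intro h
      apply h1
      have : mm e = mk' j := by rw [h, mm_mk]
      rw [this]; exact h
    · intro h
      apply h2
      have : mm e = mk' j := by rw [h, mmσ, mm_mk]
      rw [this]; exact h
  have on : ∀ e, (∀ j, e ≠ mk' j ∧ e ≠ R.σ (mk' j)) → e ≠ mm e ∧ e ≠ R.σ (mm e) := by
    intro e h
    have := h (qe e₀ (q e))
    rwa [mk_mm] at this
  have I2 := inv2 R
  refine ⟨⟨_, fun e => qe e₀ (q e), mk', fun e => uu (mm e) e, ⟨fun e => by simp only [qσ],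
    fun e => by simp only [qφ]⟩, circ_mk, ?_, ?_, ?_, ?_, ?_, ?_⟩, ?_⟩
  · -- path
    intro f fφ fσ e e' hee
    have hm : mm e = mm e' := by
      have : q e = q e' := (qe e₀).injective hee
      simp only [hmm, this]
    have key : ∀ e, f e = f (mm e) := by
      intro e
      have aux : ∀ i, i < per R.σ R.φ (mm e) → f ((rho R.σ R.φ)^[i] (mm e)) = f (mm e) := by
        intro i
        induction i with
        | zero => intro _; rfl
        | succ i ih =>
          intro hi
          have hmx : mm (R.φ ((rho R.σ R.φ)^[i] (mm e))) = mm e := by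
            have h3 : q ((rho R.σ R.φ)^[i] (mm e)) = q (mm e) :=
              (Quotient.sound (cs_iter (mm e) i)).symm
            have h4 : mm (mm e) = mm e := by
              have := mm_mk (qe e₀ (q e))
              rwa [mk_mm] at this
            rw [mmφ]
            simp only [hmm] at h3 h4 ⊢
            rw [h3]
            exact h4
          rw [rho_succ, fσ, fφ, ih (by omega)]
          refine off _ ?_ ?_
          · rw [hmx]
            exact fun h => I2.disj (mm e) 0 i h.symm
          · rw [hmx, I2.s_m (mm e)]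
            intro h
            have h5 := congrArg R.φ h
            rw [R.φφ, R.φφ] at h5
            have := iter_inj (mm e) (by omega) (by omega) h5
            omega
      obtain ⟨i, hi, h | h⟩ := hpos e
      · exact (congrArg f h).trans (aux i hi)
      · refine (congrArg f h).trans ?_
        rw [fφ, aux i hi]
    rw [key e, key e', hm]
  · -- norm
    intro e
    have hc := I2.card (mm e)
    have hp := I2.per_pos (mm e)
    obtain ⟨i, hi, ⟨_, h⟩ | ⟨_, h⟩⟩ := posu (mm e) e (hrel e)
    · rw [h]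
      have := wd_norm (mm e) i
      omega
    · rw [h]
      have := wd_norm (mm e) (i + 1)
      omega
  · intro M _ b hb e
    simp only [mmφ]
    exact uu_φ b hb (mm e) e (hrel e)
  · intro e he
    simp only [mmσ]
    obtain ⟨h1, h2⟩ := on e he
    exact uu_σ (mm e) e (hrel e) h1 h2
  · intro j
    simp only [mm_mk]
    exact uu_m _
  · intro M _ c
    have nσφ : ∀ e, R.φ (R.σ (mm e)) ≠ R.σ (mm e) := fun e => R.φ_ne _
    refine ⟨fun e => if e = R.φ (R.σ (mm e)) then c (qe e₀ (q e)) else
      if e = R.σ (mm e) then (c (qe e₀ (q e)))⁻¹ else 1, ?_, ?_⟩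
    · intro e
      simp only [mmφ, qφ]
      by_cases h1 : e = R.φ (R.σ (mm e))
      · have h2 : R.φ e = R.σ (mm e) := by
          have := congrArg R.φ h1
          rwa [R.φφ] at this
        have h3 : R.φ e ≠ R.φ (R.σ (mm e)) := by
          rw [h2]; exact (nσφ e).symm
        rw [if_neg h3, if_pos h2, if_pos h1]
      · by_cases h2 : e = R.σ (mm e)
        · have h3 : R.φ e = R.φ (R.σ (mm e)) := congrArg R.φ h2
          rw [if_pos h3, if_neg h1, if_pos h2, _root_.inv_inv]
        · have h3 : R.φ e ≠ R.φ (R.σ (mm e)) := by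
            intro h
            have := congrArg R.φ h
            rw [R.φφ, R.φφ] at this
            exact h2 this
          have h4 : R.φ e ≠ R.σ (mm e) := by
            intro h
            have := congrArg R.φ h
            rw [R.φφ] at this
            exact h1 this
          rw [if_neg h3, if_neg h4, if_neg h1, if_neg h2, inv_one]
    · intro j
      simp only [mmσ, mm_mk, uu_σm]
      have hmi : ∀ i, mm ((rho R.σ R.φ)^[i] (mk' j)) = mk' j := by
        intro i
        have h3 : q ((rho R.σ R.φ)^[i] (mk' j)) = q (mk' j) :=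
          (Quotient.sound (cs_iter (mk' j) i)).symm
        have h4 := mm_mk j
        simp only [hmm] at h3 h4 ⊢
        rw [h3]; exact h4
      rw [lift_wd]
      · have h5 : mm (R.φ (R.σ (mk' j))) = mk' j := by rw [mmφ, mmσ, mm_mk]
        have h6 : q (R.φ (R.σ (mk' j))) = q (mk' j) := by rw [qφ, qσ]
        simp only [h5, h6, if_true, circ_mk]
      · intro i hi
        simp only [hmi]
        have hp := I2.per_pos (mk' j)
        rw [if_neg, if_neg]
        · rw [I2.s_m]
          exact I2.disj _ _ _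
        · rw [I2.s_m, R.φφ]
          intro h
          have := iter_inj (mk' j) (by omega) (by omega) h
          omega
  · simp only [hmk]
    rw [← qe_root e₀, Equiv.symm_apply_apply]
    simp [mk0]

end Pool.Agent.Helper35_WH
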