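import Pool.Agent.Helper35_WH.Stmt3
import Pool.Agent.Helper75_WH.Dih

/-!
# Module POLYW: the boundary word of a polygon
-/

namespace Pool.Agent.Helper35_WH

open FreeGroup DH75

namespace PW75

variable {R : Rim} (A : Chords R)

/-- the four ends of a band -/
def four (e e' : R.E) : Prop :=
  e' = e ∨ e' = R.φ e ∨ e' = A.A e ∨ e' = R.φ (A.A e)

theorem four_symm {e e' : R.E} (h : four A e e') : four A e' e := by
  rcases h with rfl | rfl | rfl | rfl
  · exact Or.inl rfl
  · exact Or.inr (Or.inl (R.φφ _).symm)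
  · exact Or.inr (Or.inr (Or.inl (A.AA _).symm))
  · refine Or.inr (Or.inr (Or.inr ?_))
    rw [A.comm, A.AA, R.φφ]

theorem four_trans {a b c : R.E} (h : four A a b) (h' : four A b c) : four A a c := by
  rcases h with rfl | rfl | rfl | rfl <;> rcases h' with rfl | rfl | rfl | rfl <;>
    simp [four, A.comm, A.AA, R.φφ]

/-- ends of bands -/
abbrev Tb := {e : R.E // A.A e ≠ R.φ e}

/-- the bands -/
def bs : Setoid (Tb A) where
  r e e' := four A e.1 e'.1
  iseqv := ⟨fun _ => Or.inl rfl, fun h => four_symm A h, fun h h' => four_trans A h h'⟩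

/-- the number of bands -/
noncomputable def nb : ℕ := Nat.card (Quotient (bs A))

/-- the band of an end -/
noncomputable def kk (e : Tb A) : Fin (nb A) := Finite.equivFin (Quotient (bs A)) (Quotient.mk _ e)

/-- an end of a band -/
noncomputable def bd (k : Fin (nb A)) : Tb A := ((Finite.equivFin (Quotient (bs A))).symm k).out

theorem kk_bd (k : Fin (nb A)) : kk A (bd A k) = k := by
  unfold kk bd
  rw [Quotient.out_eq]
  exact Equiv.apply_symm_apply (Finite.equivFin (Quotient (bs A))) k

theorem four_bd (e : Tb A) : four A (bd A (kk A e)).1 e.1 := by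
  have h : kk A (bd A (kk A e)) = kk A e := kk_bd A _
  exact Quotient.exact ((Finite.equivFin (Quotient (bs A))).injective h)

theorem kk_of_four (k : Fin (nb A)) (e : Tb A) (h : four A (bd A k).1 e.1) : kk A e = k := by
  rw [← kk_bd A k]
  unfold kk
  exact congrArg _ (Quotient.sound (four_symm A h))

theorem Tb_of_four {e e' : R.E} (h : A.A e ≠ R.φ e) (hf : four A e e') : A.A e' ≠ R.φ e' := by
  rcases hf with rfl | rfl | rfl | rfl
  · exact h
  · intro hh
    rw [A.comm, R.φφ] at hh
    apply h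
    rw [← R.φφ (A.A e), hh]
  · intro hh
    rw [A.AA] at hh
    apply h
    rw [← R.φφ (A.A e), ← hh]
  · intro hh
    rw [A.comm, A.AA, R.φφ] at hh
    exact h hh.symm

variable (m : Marks R)

open Classical in
/-- the letter along the long side of a band -/
noncomputable def lA (e : R.E) : List (Ltr (Fin (nb A)) (Fin m.β)) :=
  if h : A.A e ≠ R.φ e then
    [(.inl (kk A ⟨e, h⟩), decide (e = (bd A (kk A ⟨e, h⟩)).1 ∨ e = R.φ (bd A (kk A ⟨e, h⟩)).1))]
  else []

theorem lA_of (k : Fin (nb A)) (e : R.E) (h : four A (bd A k).1 e) (b : Bool)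
    (hb : b = true ↔ (e = (bd A k).1 ∨ e = R.φ (bd A k).1)) :
    lA A m e = [(.inl k, b)] := by
  have h1 : A.A e ≠ R.φ e := Tb_of_four A (bd A k).2 h
  have h2 : kk A ⟨e, h1⟩ = k := kk_of_four A k ⟨e, h1⟩ h
  unfold lA
  rw [dif_pos h1, h2]
  cases b
  · have : ¬ (e = (bd A k).1 ∨ e = R.φ (bd A k).1) := by rw [← hb]; simp
    rw [decide_eq_false this]
  · have : (e = (bd A k).1 ∨ e = R.φ (bd A k).1) := by rw [← hb]
    rw [decide_eq_true this]

theorem lA_1 (k : Fin (nb A)) : lA A m (bd A k).1 = [(.inl k, true)] :=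
  lA_of A m k _ (Or.inl rfl) true (by simp)

theorem lA_2 (k : Fin (nb A)) : lA A m (R.φ (bd A k).1) = [(.inl k, true)] :=
  lA_of A m k _ (Or.inr (Or.inl rfl)) true (by simp)

theorem lA_3 (k : Fin (nb A)) : lA A m (A.A (bd A k).1) = [(.inl k, false)] :=
  lA_of A m k _ (Or.inr (Or.inr (Or.inl rfl))) false (by
    have h1 := A.A_ne (bd A k).1
    have h2 := (bd A k).2
    simp [h1, h2])

theorem lA_4 (k : Fin (nb A)) : lA A m (R.φ (A.A (bd A k).1)) = [(.inl k, false)] :=
  lA_of A m k _ (Or.inr (Or.inr (Or.inr rfl))) false (by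
    have h1 := A.A_ne (bd A k).1
    have h2 := (bd A k).2
    have h3 : R.φ (A.A (bd A k).1) ≠ (bd A k).1 := by
      intro h
      apply h2
      rw [← h, R.φφ, h]
    have h4 : R.φ (A.A (bd A k).1) ≠ R.φ (bd A k).1 := by
      intro h
      apply h1
      have := congrArg R.φ h
      rwa [R.φφ, R.φφ] at this
    simp [h3, h4])

theorem lA_cases (e : R.E) : (A.A e = R.φ e ∧ lA A m e = []) ∨ ∃ k : Fin (nb A),
    e = (bd A k).1 ∨ e = R.φ (bd A k).1 ∨ e = A.A (bd A k).1 ∨ e = R.φ (A.A (bd A k).1) := by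
  by_cases h : A.A e = R.φ e
  · left
    refine ⟨h, ?_⟩
    unfold lA
    rw [dif_neg (by simp [h])]
  · right
    exact ⟨kk A ⟨e, h⟩, four_bd A ⟨e, h⟩⟩

theorem lA_inv (e : R.E) : lA A m (A.A e) = (lA A m e).map inv := by
  rcases lA_cases A m e with ⟨h1, h2⟩ | ⟨k, rfl | rfl | rfl | rfl⟩
  · rw [h2]
    unfold lA
    rw [dif_neg]
    · rfl
    · rw [not_not, A.AA, h1, R.φφ]
  · rw [lA_1, lA_3]; rfl
  · rw [A.comm, lA_2, lA_4]; rfl
  · rw [A.AA, lA_1, lA_3]; rfl
  · rw [A.comm, A.AA, lA_2, lA_4]; rfl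

theorem lA_φ (e : R.E) (he : A.A e ≠ R.φ e) : lA A m (R.φ e) = lA A m e := by
  rcases lA_cases A m e with ⟨h1, h2⟩ | ⟨k, rfl | rfl | rfl | rfl⟩
  · exact absurd h1 he
  · rw [lA_1, lA_2]
  · rw [R.φφ, lA_1, lA_2]
  · rw [lA_3, lA_4]
  · rw [R.φφ, lA_3, lA_4]

theorem lA_len (e : R.E) : (lA A m e).length ≤ 1 := by
  unfold lA
  split_ifs <;> simp

theorem mark_inj {j j' : Option (Fin m.β)} (h : m.mark j = m.mark j') : j = j' := by
  rw [← m.circ_mark j, h, m.circ_mark]

theorem mark_ne {j j' : Option (Fin m.β)} : m.mark j ≠ R.σ (m.mark j') := by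
  intro h
  have h1 := congrArg m.circ h
  rw [m.circ_inv.1, m.circ_mark, m.circ_mark] at h1
  rw [h1] at h
  exact R.σ_ne _ h.symm

open Classical in
/-- the letter at a boundary vertex -/
noncomputable def lS (e : R.E) : List (Ltr (Fin (nb A)) (Fin m.β)) :=
  if h : ∃ j, e = m.mark (some j) then [(.inr h.choose, false)] else
    if h : ∃ j, e = R.σ (m.mark (some j)) then [(.inr h.choose, true)] else []

theorem lS_1 (j : Fin m.β) : lS A m (m.mark (some j)) = [(.inr j, false)] := by
  have h : ∃ j', m.mark (some j) = m.mark (some j') := ⟨j, rfl⟩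
  unfold lS
  rw [dif_pos h]
  have := mark_inj m h.choose_spec
  rw [← Option.some_injective _ this]

theorem lS_2 (j : Fin m.β) : lS A m (R.σ (m.mark (some j))) = [(.inr j, true)] := by
  have h0 : ¬ ∃ j', R.σ (m.mark (some j)) = m.mark (some j') := by
    rintro ⟨j', h⟩
    exact mark_ne m h.symm
  have h : ∃ j', R.σ (m.mark (some j)) = R.σ (m.mark (some j')) := ⟨j, rfl⟩
  unfold lS
  rw [dif_neg h0, dif_pos h]
  have h2 := congrArg R.σ h.choose_spec
  rw [R.σσ, R.σσ] at h2
  have := mark_inj m h2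
  rw [← Option.some_injective _ this]

theorem lS_3 (e : R.E) (h : ∀ j : Fin m.β, e ≠ m.mark (some j) ∧ e ≠ R.σ (m.mark (some j))) :
    lS A m e = [] := by
  unfold lS
  rw [dif_neg, dif_neg]
  · rintro ⟨j, hj⟩; exact (h j).2 hj
  · rintro ⟨j, hj⟩; exact (h j).1 hj

theorem lS_cases (e : R.E) : ((∀ j : Fin m.β, e ≠ m.mark (some j) ∧ e ≠ R.σ (m.mark (some j))) ∧
    lS A m e = []) ∨ ∃ j : Fin m.β, e = m.mark (some j) ∨ e = R.σ (m.mark (some j)) := by
  by_cases h : ∃ j : Fin m.β, e = m.mark (some j) ∨ e = R.σ (m.mark (some j))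
  · exact Or.inr h
  · left
    push Not at h
    exact ⟨h, lS_3 A m e h⟩

theorem lS_inv (e : R.E) : lS A m (R.σ e) = (lS A m e).map inv := by
  rcases lS_cases A m e with ⟨h1, h2⟩ | ⟨j, rfl | rfl⟩
  · rw [h2, lS_3 A m]
    · rfl
    · intro j
      obtain ⟨h3, h4⟩ := h1 j
      constructor
      · intro h
        apply h4
        rw [← h, R.σσ]
      · intro h
        apply h3
        have := congrArg R.σ h
        rwa [R.σσ, R.σσ] at this
  · rw [lS_1, lS_2]; rfl
  · rw [R.σσ, lS_1, lS_2]; rfl

theorem lS_len (e : R.E) : (lS A m e).length ≤ 1 := by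
  unfold lS
  split_ifs <;> simp

theorem lS_root : lS A m (m.mark none) = [] := by
  refine lS_3 A m _ fun j => ⟨fun h => ?_, fun h => mark_ne m h⟩
  have := mark_inj m h
  simp at this

theorem lS_root' : lS A m (R.σ (m.mark none)) = [] := by
  rw [lS_inv, lS_root]; rfl

theorem inv2 : Inv2 R.σ A.A := ⟨R.σσ, A.AA, R.σ_ne, A.A_ne⟩

/-- the points of the walk at even times -/
def pt (i : ℕ) : R.E := (rho R.σ A.A)^[i] (m.mark none)

theorem pt_succ (i : ℕ) : pt A m (i + 1) = R.σ (A.A (pt A m i)) := rho_succ _ _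

/-- the number of double steps -/
noncomputable def pp : ℕ := per R.σ A.A (m.mark none)

theorem pp_pos : 0 < pp A m := (inv2 A).per_pos _

theorem pt_inj {i j : ℕ} (hi : i < pp A m) (hj : j < pp A m) (h : pt A m i = pt A m j) : i = j :=
  iter_inj _ hi hj h

theorem pt_disj (i j : ℕ) : pt A m i ≠ A.A (pt A m j) := (inv2 A).disj _ _ _

theorem pt_zero : pt A m 0 = m.mark none := rfl

theorem pt_pp : pt A m (pp A m) = m.mark none := iter_per _

theorem pt_last : R.σ (m.mark none) = A.A (pt A m (pp A m - 1)) := (inv2 A).s_m _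

theorem pt_mem (hA : A.Trans) (e : R.E) :
    ∃ i < pp A m, e = pt A m i ∨ e = A.A (pt A m i) := by
  classical
  refine (inv2 A).mem (m.mark none) e fun P hσ hφ hm => ?_
  have h := hA (fun e => decide (P e)) (fun e => ?_) (fun e => ?_) (m.mark none) e
  · simp only [decide_eq_decide] at h
    exact h.1 hm
  · simp only [decide_eq_decide]
    exact ⟨fun hx => by have := hσ _ hx; rwa [R.σσ] at this, hσ e⟩
  · simp only [decide_eq_decide]
    exact ⟨fun hx => by have := hφ _ hx; rwa [A.AA] at this, hφ e⟩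

/-- the word up to the double step -/
noncomputable def V : ℕ → List (Ltr (Fin (nb A)) (Fin m.β))
  | 0 => []
  | i + 1 => V i ++ (lA A m (pt A m i) ++ lS A m (A.A (pt A m i)))

open Classical in
/-- the word up to an element of the rim -/
noncomputable def P (e : R.E) : List (Ltr (Fin (nb A)) (Fin m.β)) :=
  if h : ∃ i, i < pp A m ∧ e = pt A m i then V A m h.choose else
    if h : ∃ i, i < pp A m ∧ e = A.A (pt A m i) then
      V A m h.choose ++ lA A m (pt A m h.choose) else []

theorem P_a {i : ℕ} (hi : i < pp A m) : P A m (pt A m i) = V A m i := by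
  have h : ∃ j, j < pp A m ∧ pt A m i = pt A m j := ⟨i, hi, rfl⟩
  unfold P
  rw [dif_pos h, ← pt_inj A m hi h.choose_spec.1 h.choose_spec.2]

theorem P_b {i : ℕ} (hi : i < pp A m) :
    P A m (A.A (pt A m i)) = V A m i ++ lA A m (pt A m i) := by
  have h0 : ¬ ∃ j, j < pp A m ∧ A.A (pt A m i) = pt A m j := by
    rintro ⟨j, _, hj⟩
    exact pt_disj A m j i hj.symm
  have h : ∃ j, j < pp A m ∧ A.A (pt A m i) = A.A (pt A m j) := ⟨i, hi, rfl⟩
  have h2 := congrArg A.A h.choose_spec.2
  rw [A.AA, A.AA] at h2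
  have h3 := pt_inj A m hi h.choose_spec.1 h2
  unfold P
  rw [dif_neg h0, dif_pos h, ← h3]

/-- the boundary word -/
noncomputable def W : List (Ltr (Fin (nb A)) (Fin m.β)) := V A m (pp A m)

theorem W_eq : W A m = P A m (R.σ (m.mark none)) := by
  have hp := pp_pos A m
  rw [pt_last, P_b A m (by omega)]
  have h : pp A m = pp A m - 1 + 1 := by omega
  unfold W
  conv_lhs => rw [h]
  simp only [V]
  rw [← pt_last, lS_root', List.append_nil]

theorem V_prefix {i j : ℕ} (h : i ≤ j) : V A m i <+: V A m j := by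
  induction j with
  | zero =>
    have : i = 0 := by omega
    rw [this]
  | succ j ih =>
    rcases Nat.lt_or_ge i (j + 1) with h1 | h1
    · exact (ih (by omega)).trans (List.prefix_append _ _)
    · have : i = j + 1 := by omega
      rw [this]

theorem P_prefix (hA : A.Trans) (e : R.E) : P A m e <+: W A m := by
  obtain ⟨i, hi, rfl | rfl⟩ := pt_mem A m hA e
  · rw [P_a A m hi]
    exact V_prefix A m hi.le
  · rw [P_b A m hi]
    refine List.IsPrefix.trans ?_ (V_prefix A m (show i + 1 ≤ pp A m by omega))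
    simp only [V, ← List.append_assoc]
    exact List.prefix_append _ _

theorem take_P (hA : A.Trans) (e : R.E) : (W A m).take (P A m e).length = P A m e := by
  obtain ⟨t, ht⟩ := P_prefix A m hA e
  rw [← ht]
  simp

/-- a step of the walk -/
def St (e e' : R.E) (l : List (Ltr (Fin (nb A)) (Fin m.β))) : Prop :=
  P A m e' = P A m e ++ l ∨ P A m e = P A m e' ++ l.map inv

theorem St_A (hA : A.Trans) (e : R.E) : St A m e (A.A e) (lA A m e) := by
  obtain ⟨i, hi, rfl | rfl⟩ := pt_mem A m hA e
  · left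
    rw [P_a A m hi, P_b A m hi]
  · right
    rw [A.AA, P_a A m hi, P_b A m hi, ← lA_inv, A.AA]

theorem St_S (hA : A.Trans) (e : R.E) (h1 : e ≠ m.mark none) (h2 : e ≠ R.σ (m.mark none)) :
    St A m e (R.σ e) (lS A m e) := by
  obtain ⟨i, hi, rfl | rfl⟩ := pt_mem A m hA e
  · rcases i with _ | i
    · exact absurd rfl h1
    · right
      rw [P_a A m hi, pt_succ, R.σσ, P_b A m (by omega), ← lS_inv, R.σσ]
      simp only [V, List.append_assoc]
  · left
    have hi' : i + 1 < pp A m := by
      by_contra hc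
      apply h2
      rw [pt_last A m]
      have : i = pp A m - 1 := by omega
      rw [this]
    rw [P_b A m hi, ← pt_succ, P_a A m hi']
    simp only [V, List.append_assoc]

/-! ### Counting -/

theorem cnt_append (l l' : List (Ltr (Fin (nb A)) (Fin m.β))) (z : Fin (nb A) ⊕ Fin m.β) :
    cnt (l ++ l') z = cnt l z + cnt l' z := by
  unfold cnt
  rw [List.countP_append]

theorem cnt_V (z : Fin (nb A) ⊕ Fin m.β) (n : ℕ) : cnt (V A m n) z =
    ∑ i ∈ Finset.range n, (cnt (lA A m (pt A m i)) z + cnt (lS A m (A.A (pt A m i))) z) := by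
  induction n with
  | zero => rfl
  | succ n ih =>
    rw [Finset.sum_range_succ, ← ih]
    simp only [V, cnt_append]

open Classical in
theorem cnt_lA_l (k : Fin (nb A)) (e : R.E) :
    cnt (lA A m e) (.inl k) = if four A (bd A k).1 e then 1 else 0 := by
  by_cases h : four A (bd A k).1 e
  · rw [if_pos h]
    rcases h with rfl | rfl | rfl | rfl
    · rw [lA_1]; simp [cnt]
    · rw [lA_2]; simp [cnt]
    · rw [lA_3]; simp [cnt]
    · rw [lA_4]; simp [cnt]
  · rw [if_neg h]
    rcases lA_cases A m e with ⟨h1, h2⟩ | ⟨k', hk⟩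
    · rw [h2]; rfl
    · have hne : k' ≠ k := by
        rintro rfl
        exact h hk
      rcases hk with rfl | rfl | rfl | rfl
      · rw [lA_1]; simp [cnt, hne]
      · rw [lA_2]; simp [cnt, hne]
      · rw [lA_3]; simp [cnt, hne]
      · rw [lA_4]; simp [cnt, hne]

theorem cnt_lA_r (j : Fin m.β) (e : R.E) : cnt (lA A m e) (.inr j) = 0 := by
  rcases lA_cases A m e with ⟨h1, h2⟩ | ⟨k', rfl | rfl | rfl | rfl⟩
  · rw [h2]; rfl
  · rw [lA_1]; simp [cnt]
  · rw [lA_2]; simp [cnt]
  · rw [lA_3]; simp [cnt]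
  · rw [lA_4]; simp [cnt]

theorem cnt_lS_l (k : Fin (nb A)) (e : R.E) : cnt (lS A m e) (.inl k) = 0 := by
  rcases lS_cases A m e with ⟨h1, h2⟩ | ⟨j, rfl | rfl⟩
  · rw [h2]; rfl
  · rw [lS_1]; simp [cnt]
  · rw [lS_2]; simp [cnt]

open Classical in
theorem cnt_lS_r (j : Fin m.β) (e : R.E) : cnt (lS A m e) (.inr j) =
    if e = m.mark (some j) ∨ e = R.σ (m.mark (some j)) then 1 else 0 := by
  by_cases h : e = m.mark (some j) ∨ e = R.σ (m.mark (some j))
  · rw [if_pos h]
    rcases h with rfl | rfl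
    · rw [lS_1]; simp [cnt]
    · rw [lS_2]; simp [cnt]
  · rw [if_neg h]
    rcases lS_cases A m e with ⟨h1, h2⟩ | ⟨j', hj⟩
    · rw [h2]; rfl
    · have hne : j' ≠ j := by
        rintro rfl
        exact h hj
      rcases hj with rfl | rfl
      · rw [lS_1]; simp [cnt, hne]
      · rw [lS_2]; simp [cnt, hne]

theorem idx_iff {e : R.E} {i₁ i : ℕ} (h₁ : i₁ < pp A m)
    (he : e = pt A m i₁ ∨ e = A.A (pt A m i₁)) (hi : i < pp A m) :
    (pt A m i = e ∨ pt A m i = A.A e) ↔ i = i₁ := by
  rcases he with rfl | rfl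
  · constructor
    · rintro (h | h)
      · exact pt_inj A m hi h₁ h
      · exact absurd h (pt_disj A m _ _)
    · rintro rfl; exact Or.inl rfl
  · rw [A.AA]
    constructor
    · rintro (h | h)
      · exact absurd h (pt_disj A m _ _)
      · exact pt_inj A m hi h₁ h
    · rintro rfl; exact Or.inr rfl

theorem two (hA : A.Trans) (k : Fin (nb A)) : cnt (W A m) (.inl k) = 2 := by
  classical
  unfold W
  rw [cnt_V]
  simp only [cnt_lA_l, cnt_lS_l, add_zero]
  rw [← Finset.card_filter]
  obtain ⟨i₁, h₁, e₁⟩ := pt_mem A m hA (bd A k).1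
  obtain ⟨i₂, h₂, e₂⟩ := pt_mem A m hA (R.φ (bd A k).1)
  have hne : i₁ ≠ i₂ := by
    rintro rfl
    have n1 := R.φ_ne (bd A k).1
    have n2 := (bd A k).2
    rcases e₁ with e₁ | e₁ <;> rcases e₂ with e₂ | e₂
    · exact n1 (e₂.trans e₁.symm)
    · rw [← e₁] at e₂; exact n2 e₂.symm
    · rw [← A.AA (pt A m i₁), ← e₁] at e₂; exact n2 e₂.symm
    · exact n1 (e₂.trans e₁.symm)
  have : Finset.filter (fun i => four A (bd A k).1 (pt A m i)) (Finset.range (pp A m)) =
      {i₁, i₂} := by
    ext i
    simp only [Finset.mem_filter, Finset.mem_range, Finset.mem_insert, Finset.mem_singleton]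
    constructor
    · rintro ⟨hi, h⟩
      rcases h with h | h | h | h
      · exact Or.inl ((idx_iff A m h₁ e₁ hi).1 (Or.inl h))
      · exact Or.inr ((idx_iff A m h₂ e₂ hi).1 (Or.inl h))
      · exact Or.inl ((idx_iff A m h₁ e₁ hi).1 (Or.inr h))
      · exact Or.inr ((idx_iff A m h₂ e₂ hi).1 (Or.inr (by rw [h, A.comm])))
    · rintro (rfl | rfl)
      · refine ⟨h₁, ?_⟩
        rcases (idx_iff A m h₁ e₁ h₁).2 rfl with h | h
        · exact Or.inl h
        · exact Or.inr (Or.inr (Or.inl h))
      · refine ⟨h₂, ?_⟩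
        rcases (idx_iff A m h₂ e₂ h₂).2 rfl with h | h
        · exact Or.inr (Or.inl h)
        · exact Or.inr (Or.inr (Or.inr (by rw [h, A.comm])))
  rw [this, Finset.card_pair hne]

theorem one (hA : A.Trans) (j : Fin m.β) : cnt (W A m) (.inr j) = 1 := by
  classical
  unfold W
  rw [cnt_V]
  simp only [cnt_lA_r, cnt_lS_r, zero_add]
  rw [← Finset.card_filter]
  obtain ⟨i₁, h₁, e₁⟩ := pt_mem A m hA (m.mark (some j))
  obtain ⟨i₀, h₀, hi₀⟩ : ∃ i₀ < pp A m, ∀ i < pp A m,
      (A.A (pt A m i) = m.mark (some j) ∨ A.A (pt A m i) = R.σ (m.mark (some j))) ↔ i = i₀ := by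
    rcases e₁ with e₁ | e₁
    · rcases i₁ with _ | i₁
      · rw [pt_zero] at e₁
        have := mark_inj m e₁
        simp at this
      · have e₃ : R.σ (m.mark (some j)) = A.A (pt A m i₁) := by
          rw [e₁, pt_succ, R.σσ]
        refine ⟨i₁, by omega, fun i hi => ⟨?_, ?_⟩⟩
        · rintro (h | h)
          · rw [e₁] at h
            exact absurd h.symm (pt_disj A m _ _)
          · rw [e₃] at h
            have := congrArg A.A h
            rw [A.AA, A.AA] at this
            exact pt_inj A m hi (by omega) this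
        · rintro rfl
          exact Or.inr e₃.symm
    · refine ⟨i₁, h₁, fun i hi => ⟨?_, ?_⟩⟩
      · rintro (h | h)
        · rw [e₁] at h
          have := congrArg A.A h
          rw [A.AA, A.AA] at this
          exact pt_inj A m hi h₁ this
        · rw [e₁, ← pt_succ] at h
          exact absurd h.symm (pt_disj A m _ _)
      · rintro rfl
        exact Or.inl e₁.symm
  have : Finset.filter (fun i => A.A (pt A m i) = m.mark (some j) ∨
      A.A (pt A m i) = R.σ (m.mark (some j))) (Finset.range (pp A m)) = {i₀} := by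
    ext i
    simp only [Finset.mem_filter, Finset.mem_range, Finset.mem_singleton]
    constructor
    · rintro ⟨hi, h⟩
      exact (hi₀ i hi).1 h
    · rintro rfl
      exact ⟨h₀, (hi₀ i h₀).2 rfl⟩
  rw [this, Finset.card_singleton]

theorem len : (W A m).length ≤ Fintype.card R.E := by
  have h1 : ∀ i, (V A m i).length ≤ 2 * i := by
    intro i
    induction i with
    | zero => simp [V]
    | succ i ih =>
      have h2 := lA_len A m (pt A m i)
      have h3 := lS_len A m (A.A (pt A m i))
      simp only [V, List.length_append]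
      omega
  exact (h1 _).trans ((inv2 A).card _)

/-! ### Colours -/

/-- reading a word along a path of colours -/
def Pth {L B α : Type} (g : Ltr L B → α) : α → List (Ltr L B) → α → Prop
  | a, [], b => a = b
  | a, x :: l, b => g x = a ∧ Pth g (g (inv x)) l b

theorem Pth_append {L B α : Type} (g : Ltr L B → α) (l l' : List (Ltr L B)) :
    ∀ {a b c : α}, Pth g a l b → Pth g b l' c → Pth g a (l ++ l') c := by
  induction l with
  | nil => intro a b c h h'; rw [show a = b from h]; exact h'
  | cons x l ih => intro a b c h h'; exact ⟨h.1, ih h.2 h'⟩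

theorem Pth_spec {L B α : Type} (g : Ltr L B → α) (l : List (Ltr L B)) :
    ∀ {a b : α}, Pth g a l b → Compat g l ∧ (∀ x ∈ l.head?, g x = a) ∧
      ∀ x ∈ l.getLast?, g (inv x) = b := by
  induction l with
  | nil => intro a b _; exact ⟨List.isChain_nil, by simp, by simp⟩
  | cons x l ih =>
    intro a b h
    obtain ⟨h1, h2, h3⟩ := ih h.2
    refine ⟨?_, ?_, ?_⟩
    · unfold Compat at h1 ⊢
      cases l with
      | nil => exact List.isChain_singleton _
      | cons y l =>
        rw [List.isChain_cons_cons]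
        exact ⟨(h2 y (by simp)).symm, h1⟩
    · intro y hy
      simp only [List.head?_cons, Option.mem_def, Option.some.injEq] at hy
      rw [← hy]; exact h.1
    · intro y hy
      cases l with
      | nil =>
        simp only [List.getLast?_singleton, Option.mem_def, Option.some.injEq] at hy
        rw [← hy]; exact h.2
      | cons z l =>
        rw [List.getLast?_cons_cons] at hy
        exact h3 y hy

/-- colours of the ends of the letters -/
noncomputable def col : Ltr (Fin (nb A)) (Fin m.β) → Option (Fin m.β)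
  | (.inl k, b) => if b then m.circ (bd A k).1 else m.circ (A.A (bd A k).1)
  | (.inr j, _) => some j

theorem col_A (e : R.E) : Pth (col A m) (m.circ e) (lA A m e) (m.circ (A.A e)) := by
  rcases lA_cases A m e with ⟨h1, h2⟩ | ⟨k, rfl | rfl | rfl | rfl⟩
  · rw [h2, h1, m.circ_inv.2]; rfl
  · rw [lA_1]; exact ⟨rfl, rfl⟩
  · rw [lA_2, A.comm, m.circ_inv.2, m.circ_inv.2]; exact ⟨rfl, rfl⟩
  · rw [lA_3, A.AA]; exact ⟨rfl, rfl⟩
  · rw [lA_4, A.comm, A.AA, m.circ_inv.2, m.circ_inv.2]; exact ⟨rfl, rfl⟩

theorem col_S (e : R.E) : Pth (col A m) (m.circ e) (lS A m e) (m.circ (R.σ e)) := by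
  rcases lS_cases A m e with ⟨h1, h2⟩ | ⟨j, rfl | rfl⟩
  · rw [h2, m.circ_inv.1]; rfl
  · rw [lS_1, m.circ_inv.1, m.circ_mark]; exact ⟨rfl, rfl⟩
  · rw [lS_2, R.σσ, m.circ_inv.1, m.circ_mark]; exact ⟨rfl, rfl⟩

theorem col_V (i : ℕ) : Pth (col A m) none (V A m i) (m.circ (pt A m i)) := by
  induction i with
  | zero => rw [pt_zero, m.circ_mark]; rfl
  | succ i ih =>
    simp only [V]
    rw [pt_succ]
    exact Pth_append _ _ _ ih (Pth_append _ _ _ (col_A A m _) (col_S A m _))

theorem col_W : Pth (col A m) none (W A m) none := by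
  have := col_V A m (pp A m)
  rwa [pt_pp, m.circ_mark] at this

/-- corner values -/
def val {L B : Type} (g : Ltr L B → Bool) (W : List (Ltr L B)) (i : ℕ) : Bool :=
  match W.drop i with
  | a :: _ => g a
  | [] => match W.getLast? with
    | some a => g (inv a)
    | none => false

theorem val_1 {L B : Type} (g : Ltr L B → Bool) (W1 W2 : List (Ltr L B)) (a : Ltr L B) :
    val g (W1 ++ a :: W2) W1.length = g a := by
  unfold val
  rw [List.drop_left]

theorem val_2 {L B : Type} (g : Ltr L B → Bool) (W1 W2 : List (Ltr L B)) (a : Ltr L B)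
    (h : Compat g (W1 ++ a :: W2)) : val g (W1 ++ a :: W2) (W1.length + 1) = g (inv a) := by
  have h1 : (W1 ++ a :: W2).drop (W1.length + 1) = W2 := by
    have : W1 ++ a :: W2 = (W1 ++ [a]) ++ W2 := by simp
    rw [this]
    have h2 : W1.length + 1 = (W1 ++ [a]).length := by simp
    rw [h2, List.drop_left]
  unfold val
  rw [h1]
  cases W2 with
  | nil => simp
  | cons b W2 =>
    unfold Compat at h
    rw [List.isChain_append] at h
    have h3 := h.2.1
    rw [List.isChain_cons_cons] at h3
    exact h3.1.symm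

variable {A m}

theorem St_val0 {e e' : R.E} (g : Ltr (Fin (nb A)) (Fin m.β) → Bool) (h : St A m e e' []) :
    val g (W A m) (P A m e).length = val g (W A m) (P A m e').length := by
  rcases h with h | h <;> simp [h]

theorem St_val1 (hA : A.Trans) {e e' : R.E} (g : Ltr (Fin (nb A)) (Fin m.β) → Bool)
    (hg : Compat g (W A m)) {a : Ltr (Fin (nb A)) (Fin m.β)} (h : St A m e e' [a]) :
    val g (W A m) (P A m e).length = g a ∧ val g (W A m) (P A m e').length = g (inv a) := by
  rcases h with h | h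
  · obtain ⟨t, ht⟩ := P_prefix A m hA e'
    rw [h] at ht
    have ht' : P A m e ++ a :: t = W A m := by rw [← ht]; simp
    rw [← ht'] at hg ⊢
    refine ⟨val_1 g _ _ _, ?_⟩
    have h2 : (P A m e').length = (P A m e).length + 1 := by rw [h]; simp
    rw [h2]
    exact val_2 g _ _ _ hg
  · simp only [List.map_cons, List.map_nil] at h
    obtain ⟨t, ht⟩ := P_prefix A m hA e
    rw [h] at ht
    have ht' : P A m e' ++ inv a :: t = W A m := by rw [← ht]; simp
    rw [← ht'] at hg ⊢
    refine ⟨?_, val_1 g _ _ _⟩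
    have h2 : (P A m e).length = (P A m e').length + 1 := by rw [h]; simp
    rw [h2, val_2 g _ _ _ hg, inv_inv]

variable (A m)

theorem vc (hA : A.Trans) : VC (W A m) (col A m) := by
  obtain ⟨h1, h2, h3⟩ := Pth_spec _ _ (col_W A m)
  refine ⟨fun j b => rfl, h1, h2, h3, fun x j _ _ => by rw [one A m hA]; simp, ?_⟩
  intro g hg x y _ _ hxy
  set f : R.E → Bool := fun e => val g (W A m) (P A m e).length with hf
  have fφ : ∀ e, f (R.φ e) = f e := by
    intro e
    rcases lA_cases A m e with ⟨h1, h2⟩ | ⟨k, hk⟩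
    · have := St_A A m hA e
      rw [h2, h1] at this
      exact (St_val0 g this).symm
    · have hne : A.A e ≠ R.φ e := Tb_of_four A (bd A k).2 hk
      have s1 := St_A A m hA e
      have s2 := St_A A m hA (R.φ e)
      rw [lA_φ A m e hne] at s2
      obtain ⟨a, ha⟩ : ∃ a, lA A m e = [a] := by
        rcases hk with rfl | rfl | rfl | rfl
        · exact ⟨_, lA_1 A m k⟩
        · exact ⟨_, lA_2 A m k⟩
        · exact ⟨_, lA_3 A m k⟩
        · exact ⟨_, lA_4 A m k⟩
      rw [ha] at s1 s2
      exact ((St_val1 hA g hg s2).1).trans ((St_val1 hA g hg s1).1).symm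
  have fσ : ∀ e, (∀ j, e ≠ m.mark j ∧ e ≠ R.σ (m.mark j)) → f (R.σ e) = f e := by
    intro e he
    have := St_S A m hA e (he none).1 (he none).2
    rw [lS_3 A m e fun j => he (some j)] at this
    exact (St_val0 g this).symm
  have hpath := m.path f fφ fσ
  have key : ∀ x : Ltr (Fin (nb A)) (Fin m.β), ∃ e, m.circ e = col A m x ∧ f e = g x := by
    rintro ⟨k | j, b⟩
    · cases b
      · refine ⟨A.A (bd A k).1, rfl, ?_⟩
        have := St_A A m hA (A.A (bd A k).1)
        rw [lA_3] at this
        exact (St_val1 hA g hg this).1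
      · refine ⟨(bd A k).1, rfl, ?_⟩
        have := St_A A m hA (bd A k).1
        rw [lA_1] at this
        exact (St_val1 hA g hg this).1
    · cases b
      · refine ⟨m.mark (some j), by rw [m.circ_mark]; rfl, ?_⟩
        have := St_S A m hA (m.mark (some j)) (fun h => by simpa using mark_inj m h) (mark_ne m)
        rw [lS_1] at this
        exact (St_val1 hA g hg this).1
      · refine ⟨R.σ (m.mark (some j)), by rw [m.circ_inv.1, m.circ_mark]; rfl, ?_⟩
        have := St_S A m hA (R.σ (m.mark (some j))) (fun h => mark_ne m h.symm) (fun h => by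
          have h' := congrArg R.σ h
          rw [R.σσ, R.σσ] at h'
          simpa using mark_inj m h')
        rw [lS_2] at this
        exact (St_val1 hA g hg this).1
  obtain ⟨e, he1, he2⟩ := key x
  obtain ⟨e', he1', he2'⟩ := key y
  rw [← he2, ← he2']
  exact hpath e e' (by rw [he1, he1', hxy])

/-! ### Values -/

section values

variable {M : Type} [Group M]

theorem map_inv1 {L B : Type} (F : FreeGroup (L ⊕ B) →* M) (l : List (Ltr L B))
    (hl : l.length ≤ 1) : F (mk (l.map inv)) = (F (mk l))⁻¹ := by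
  rcases l with _ | ⟨⟨x, b⟩, _ | ⟨y, l⟩⟩
  · show F 1 = (F 1)⁻¹
    rw [_root_.map_one, inv_one]
  · rw [← _root_.map_inv]
    congr 1
  · simp at hl

theorem St_F {e e' : R.E} (F : FreeGroup (Fin (nb A) ⊕ Fin m.β) →* M)
    {l : List (Ltr (Fin (nb A)) (Fin m.β))} (hl : l.length ≤ 1) (h : St A m e e' l) :
    F (mk (P A m e')) = F (mk (P A m e)) * F (mk l) := by
  rcases h with h | h
  · rw [h, ← mul_mk, _root_.map_mul]
  · rw [h, ← mul_mk, _root_.map_mul, map_inv1 F l hl, inv_mul_cancel_right]

theorem lift_1 {L B : Type} (x : L → M) (c : B → M) (k : L) (b : Bool) :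
    FreeGroup.lift (Sum.elim x c) (mk [(.inl k, b)]) = if b then x k else (x k)⁻¹ := by
  cases b <;> simp

theorem lift_2 {L B : Type} (x : L → M) (c : B → M) (k : B) (b : Bool) :
    FreeGroup.lift (Sum.elim x c) (mk [(.inr k, b)]) = if b then c k else (c k)⁻¹ := by
  cases b <;> simp

theorem fwd (hA : A.Trans) (c : Option (Fin m.β) → M) (s : R.E → M) (hs : PolyVal m A c s) :
    FreeGroup.lift (Sum.elim (fun k => (s (bd A k).1)⁻¹ * s (A.A (bd A k).1))
      fun j => c (some j)) (mk (W A m)) = (c none)⁻¹ ∧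
    ∀ e, s e = FreeGroup.lift (Sum.elim (fun k => (s (bd A k).1)⁻¹ * s (A.A (bd A k).1))
      fun j => c (some j)) (mk ((W A m).take (P A m e).length)) := by
  set F := FreeGroup.lift (Sum.elim (fun k => (s (bd A k).1)⁻¹ * s (A.A (bd A k).1))
      fun j => c (some j)) with hF
  have sA : ∀ e, s (A.A e) = s e * F (mk (lA A m e)) := by
    intro e
    rcases lA_cases A m e with ⟨h1, h2⟩ | ⟨k, rfl | rfl | rfl | rfl⟩
    · rw [h2, h1, hs.nb e h1]
      show s e = s e * F 1
      rw [_root_.map_one, mul_one]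
    · rw [lA_1, hF, lift_1, if_pos rfl, mul_inv_cancel_left]
    · have hb := hs.band _ (bd A k).2
      rw [lA_2, hF, lift_1, if_pos rfl, hb, mul_inv_cancel_left, A.comm]
    · rw [lA_3, hF, lift_1, if_neg (by simp), A.AA]
      simp
    · have hb := hs.band _ (bd A k).2
      rw [lA_4, hF, lift_1, if_neg (by simp), hb, A.comm, A.AA]
      simp
  have sS : ∀ e, e ≠ m.mark none → e ≠ R.σ (m.mark none) →
      s (R.σ e) = s e * F (mk (lS A m e)) := by
    intro e n1 n2
    rcases lS_cases A m e with ⟨h1, h2⟩ | ⟨j, rfl | rfl⟩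
    · rw [h2, hs.vert e (fun j => by
        cases j with
        | none => exact ⟨n1, n2⟩
        | some j => exact h1 j)]
      show s e = s e * F 1
      rw [_root_.map_one, mul_one]
    · rw [lS_1, hF, lift_2, if_neg (by simp), hs.mk' (some j), mul_inv_cancel_right]
    · rw [lS_2, hF, lift_2, if_pos rfl, R.σσ, hs.mk' (some j)]
  have sV : ∀ i, i < pp A m → s (pt A m i) = F (mk (V A m i)) := by
    intro i
    induction i with
    | zero =>
      intro _
      rw [pt_zero, hs.root]
      exact (_root_.map_one F).symm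
    | succ i ih =>
      intro hi
      simp only [V]
      rw [pt_succ, sS, sA, ih (by omega), ← mul_mk, ← mul_mk, _root_.map_mul, _root_.map_mul,
        mul_assoc]
      · intro h
        exact pt_disj A m 0 i h.symm
      · intro h
        rw [pt_last A m] at h
        have := congrArg A.A h
        rw [A.AA, A.AA] at this
        have := pt_inj A m (by omega) (by omega) this
        omega
  have sP : ∀ e, s e = F (mk (P A m e)) := by
    intro e
    obtain ⟨i, hi, rfl | rfl⟩ := pt_mem A m hA e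
    · rw [P_a A m hi, sV i hi]
    · rw [P_b A m hi, sA, sV i hi, ← mul_mk, _root_.map_mul]
  constructor
  · rw [W_eq, ← sP]
    have := hs.mk' none
    rw [hs.root] at this
    exact eq_inv_of_mul_eq_one_left this.symm
  · intro e
    rw [take_P A m hA, ← sP]

theorem bwd (hA : A.Trans) (c : Option (Fin m.β) → M) (x : Fin (nb A) → M)
    (hx : FreeGroup.lift (Sum.elim x fun j => c (some j)) (mk (W A m)) = (c none)⁻¹) :
    PolyVal m A c (fun e => FreeGroup.lift (Sum.elim x fun j => c (some j))
      (mk ((W A m).take (P A m e).length))) ∧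
    ∀ k, x k = (FreeGroup.lift (Sum.elim x fun j => c (some j))
        (mk ((W A m).take (P A m (bd A k).1).length)))⁻¹ *
      FreeGroup.lift (Sum.elim x fun j => c (some j))
        (mk ((W A m).take (P A m (A.A (bd A k).1)).length)) := by
  set F := FreeGroup.lift (Sum.elim x fun j => c (some j)) with hF
  simp only [take_P A m hA]
  have sA : ∀ e, F (mk (P A m (A.A e))) = F (mk (P A m e)) * F (mk (lA A m e)) :=
    fun e => St_F A m F (lA_len A m e) (St_A A m hA e)
  have sS : ∀ e, e ≠ m.mark none → e ≠ R.σ (m.mark none) →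
      F (mk (P A m (R.σ e))) = F (mk (P A m e)) * F (mk (lS A m e)) :=
    fun e h1 h2 => St_F A m F (lS_len A m e) (St_S A m hA e h1 h2)
  have F1 : F (mk []) = 1 := _root_.map_one F
  have hroot : F (mk (P A m (m.mark none))) = 1 := by
    have := P_a A m (i := 0) (pp_pos A m)
    rw [pt_zero] at this
    rw [this]
    exact F1
  refine ⟨⟨hroot, ?_, ?_, ?_, ?_⟩, ?_⟩
  · intro e he
    rcases lA_cases A m e with ⟨h1, h2⟩ | ⟨k, hk⟩
    · have := sA e
      rw [h2, F1, mul_one, he] at this
      exact this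
    · exact absurd he (Tb_of_four A (bd A k).2 hk)
  · intro e he
    have := sS e (he none).1 (he none).2
    rw [lS_3 A m e fun j => he (some j), F1, mul_one] at this
    exact this
  · intro j
    cases j with
    | none =>
      show F (mk (P A m (m.mark none))) = F (mk (P A m (R.σ (m.mark none)))) * c none
      rw [hroot, ← W_eq, hx, inv_mul_cancel]
    | some j =>
      have := sS (m.mark (some j)) (fun h => by simpa using mark_inj m h) (mark_ne m)
      rw [lS_1, hF, lift_2, if_neg (by simp)] at this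
      show F (mk (P A m (m.mark (some j)))) = F (mk (P A m (R.σ (m.mark (some j))))) * c (some j)
      rw [hF, this, inv_mul_cancel_right]
  · intro e he
    have h1 := sA e
    have h2 := sA (R.φ e)
    rw [A.comm] at h2
    show (F (mk (P A m e)))⁻¹ * F (mk (P A m (A.A e))) =
      (F (mk (P A m (R.φ e))))⁻¹ * F (mk (P A m (R.φ (A.A e))))
    rw [h1, h2, lA_φ A m e he, inv_mul_cancel_left, inv_mul_cancel_left]
  · intro k
    rw [sA, inv_mul_cancel_left, lA_1, hF, lift_1, if_pos rfl]

end values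

end PW75

open PW75 in
theorem polyWord : PolyWordStatement := by
  intro R m A hA
  exact ⟨{
    ℓ := nb A
    W := W A m
    pre := fun e => (P A m e).length
    bnd := fun k => (bd A k).1
    col := col A m
    two := two A m hA
    one := one A m hA
    len := len A m
    vc := vc A m hA
    bnd_ne := fun k => (bd A k).2
    fwd := fun M _ c s hs => fwd A m hA c s hs
    bwd := fun M _ c x hx => bwd A m hA c x hx }⟩

end Pool.Agent.Helper35_WH
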